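import Mathlib

/-! # Full KLS, part (alpha): the abstract operator theorem. Definitions and interface.

`H` is a real inner product space (in the application L2 of the measure, or its mean zero part),
`T i` are the bounded operators `L phi ↦ d_i phi - E d_i phi`, `x i` the centred coordinates.
Everything in (alpha) uses only the structure `Sys` and the bounds `Sys.Mom l m`. -/

open scoped BigOperators InnerProductSpace
open Finset

namespace Pool.Agent.Lib.MP_8d00da_gt.h62a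

/-- the abstract system: one analytic axiom (C). -/
structure Sys (ι : Type) [Fintype ι] (H : Type*) [NormedAddCommGroup H]
    [InnerProductSpace ℝ H] where
  T : ι → H →L[ℝ] H
  x : ι → H
  kap : ℝ
  kap_pos : 0 < kap
  /-- (C): the chain axiom (Bochner + integration by parts + Cauchy-Schwarz). -/
  chain : ∀ g : H, (∑ i, ‖T i g‖ ^ 2) ^ 2 ≤
    (‖g‖ ^ 2 - kap * ∑ i, ‖T i g‖ ^ 2) *
      ((∑ i, ∑ j, ‖T i (T j g) + T j (T i g)‖ ^ 2) / 4
        + (∑ i, ∑ j, (⟪x i, T j g⟫_ℝ + ⟪x j, T i g⟫_ℝ) ^ 2) / 4)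
  /-- (C0): the Lichnerowicz bound. -/
  bound : ∀ g : H, kap * ∑ i, ‖T i g‖ ^ 2 ≤ ‖g‖ ^ 2

section words

variable {ι : Type} [Fintype ι] {H : Type*} [NormedAddCommGroup H] [InnerProductSpace ℝ H]

/-- `word S [i1,...,ik] g = T i1 (T i2 (... (T ik g)))`. -/
def Sys.word (S : Sys ι H) : List ι → H → H
  | [], g => g
  | i :: L, g => S.T i (S.word L g)

/-- `xw S [i0,i1,...,ik] g = ⟪x i0, T i1 (... (T ik g))⟫`, and `0` for the empty word. -/
noncomputable def Sys.xw (S : Sys ι H) : List ι → H → ℝ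
  | [], _ => 0
  | i :: L, g => ⟪S.x i, S.word L g⟫_ℝ

/-- `a k g = ∑_{|I| = k} |T_I g|²`. -/
noncomputable def Sys.a (S : Sys ι H) (k : ℕ) (g : H) : ℝ :=
  ∑ I : Fin k → ι, ‖S.word (List.ofFn I) g‖ ^ 2

/-- `al k g = ∑_{|I| = k} ∑_{i,j} |(T_i T_j - T_j T_i) T_I g|² / 4`. -/
noncomputable def Sys.al (S : Sys ι H) (k : ℕ) (g : H) : ℝ :=
  ∑ I : Fin k → ι, (∑ i, ∑ j, ‖S.T i (S.T j (S.word (List.ofFn I) g))
    - S.T j (S.T i (S.word (List.ofFn I) g))‖ ^ 2) / 4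

/-- `zz k g = |X_{k+2}(g)|²`, the full norm of the real tensor with `k+2` slots. -/
noncomputable def Sys.zz (S : Sys ι H) (k : ℕ) (g : H) : ℝ :=
  ∑ I : Fin (k + 2) → ι, (S.xw (List.ofFn I) g) ^ 2

/-- (M_l): for all symmetric coefficient tensors `C` of order `l`:
`|∑_I C_I ⟪x_{I0}, T_{I1} ... T_{I(l-1)} g⟫|² ≤ m |C|² |g|²`. Only used for `l ≥ 1`. -/
def Sys.Mom (S : Sys ι H) (l : ℕ) (m : ℝ) : Prop :=
  ∀ (C : (Fin l → ι) → ℝ), (∀ (σ : Equiv.Perm (Fin l)) (I : Fin l → ι), C (I ∘ σ) = C I) →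
    ∀ g : H, (∑ I : Fin l → ι, C I * S.xw (List.ofFn I) g) ^ 2
      ≤ m * (∑ I : Fin l → ι, C I ^ 2) * ‖g‖ ^ 2

end words

section perms

variable {M : ℕ} {E : Type*} [NormedAddCommGroup E] [InnerProductSpace ℝ E]

/-- the transposition of the slots `i` and `j` (the identity if one of them is out of range). -/
def tau (M i j : ℕ) : Equiv.Perm (Fin M) :=
  if h : i < M ∧ j < M then Equiv.swap ⟨i, h.1⟩ ⟨j, h.2⟩ else 1

/-- `U ρ X j = P_j X`, the symmetriser of the first `j` slots, by recursion: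
`(j+1) U_{j+1} = U_j + ∑_{i<j} τ_{ij} U_j`, `U_0 = X` (so `U_1 = X`). -/
noncomputable def U (ρ : Equiv.Perm (Fin M) →* (E ≃ₗᵢ[ℝ] E)) (X : E) : ℕ → E
  | 0 => X
  | j + 1 => ((j : ℝ) + 1)⁻¹ • (U ρ X j + ∑ i ∈ range j, ρ (tau M i j) (U ρ X j))

/-- `e_j = |(1-τ_{j,j+1})/2 U_j|`. -/
noncomputable def e0 (ρ : Equiv.Perm (Fin M) →* (E ≃ₗᵢ[ℝ] E)) (X : E) (j : ℕ) : ℝ :=
  ‖U ρ X j - ρ (tau M j (j + 1)) (U ρ X j)‖ / 2

/-- `e'_j = |(1-τ_{j+1,j+2})/2 U_j|`. -/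
noncomputable def e1 (ρ : Equiv.Perm (Fin M) →* (E ≃ₗᵢ[ℝ] E)) (X : E) (j : ℕ) : ℝ :=
  ‖U ρ X j - ρ (tau M (j + 1) (j + 2)) (U ρ X j)‖ / 2

end perms

/-- the permutation action on real tensors with `M` slots: `(act σ X) I = X (I ∘ σ)`. -/
noncomputable def act (ι : Type) [Fintype ι] (M : ℕ) :
    Equiv.Perm (Fin M) →* (EuclideanSpace ℝ (Fin M → ι) ≃ₗᵢ[ℝ] EuclideanSpace ℝ (Fin M → ι)) where
  toFun σ := LinearIsometryEquiv.piLpCongrLeft 2 ℝ ℝ (Equiv.arrowCongr σ (Equiv.refl ι))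
  map_one' := by
    ext v I
    simp [LinearIsometryEquiv.piLpCongrLeft_apply, Equiv.piCongrLeft']
    rfl
  map_mul' σ σ' := by
    ext v I
    simp [LinearIsometryEquiv.piLpCongrLeft_apply, Equiv.piCongrLeft']
    rfl

theorem act_apply (ι : Type) [Fintype ι] (M : ℕ) (σ : Equiv.Perm (Fin M))
    (X : EuclideanSpace ℝ (Fin M → ι)) (I : Fin M → ι) : act ι M σ X I = X (I ∘ σ) := by
  simp [act, LinearIsometryEquiv.piLpCongrLeft_apply, Equiv.piCongrLeft']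
  rfl

/-- the real tensor `X_M(g)` with `M` slots: `I ↦ ⟪x_{I0}, T_{I1} ... T_{I(M-1)} g⟫`. -/
noncomputable def Sys.XX {ι : Type} [Fintype ι] {H : Type*} [NormedAddCommGroup H]
    [InnerProductSpace ℝ H] (S : Sys ι H) (M : ℕ) (g : H) : EuclideanSpace ℝ (Fin M → ι) :=
  WithLp.toLp 2 (fun I => S.xw (List.ofFn I) g)

end Pool.Agent.Lib.MP_8d00da_gt.h62a
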