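import Mathlib
import Pool.Agent.Lib.MP_8d00da_gt.h42k.S5e
import Pool.Agent.Lib.MP_8d00da_gt.h62a.Defs

section

section

/-!
# Prékopa–Leindler for real functions
-/

namespace Pool.Agent.Lib.MP_8d00da_gt.h42

open MeasureTheory Set Filter
open scoped Pointwise Topology

variable {F : Type*} [NormedAddCommGroup F] [InnerProductSpace ℝ F]
    [FiniteDimensional ℝ F] [MeasurableSpace F] [BorelSpace F]

theorem pl_integral {a : ℝ} (ha0 : 0 < a) (ha1 : a < 1) {u v w : F → ℝ}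
    (hu0 : ∀ x, 0 ≤ u x) (hv0 : ∀ x, 0 ≤ v x) (hw0 : ∀ x, 0 ≤ w x)
    (hum : Measurable u) (hvm : Measurable v) (hwm : Measurable w)
    (hui : Integrable u) (hvi : Integrable v) (hwi : Integrable w)
    (h : ∀ x y, u x ^ (1 - a) * v y ^ a ≤ w ((1 - a) • x + a • y)) :
    (∫ x, u x) ^ (1 - a) * (∫ x, v x) ^ a ≤ ∫ x, w x := by
  have h1a : 0 < 1 - a := by linarith
  have key := pl_space F a ha0 ha1 (fun x => ENNReal.ofReal (u x)) (fun x => ENNReal.ofReal (v x))
    (fun x => ENNReal.ofReal (w x)) hum.ennreal_ofReal hvm.ennreal_ofReal hwm.ennreal_ofReal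
    (fun x y => by
      rw [ENNReal.ofReal_rpow_of_nonneg (hu0 x) h1a.le, ENNReal.ofReal_rpow_of_nonneg (hv0 y) ha0.le,
        ← ENNReal.ofReal_mul (Real.rpow_nonneg (hu0 x) _)]
      exact ENNReal.ofReal_le_ofReal (h x y))
  rw [← ofReal_integral_eq_lintegral_ofReal hui (Eventually.of_forall hu0),
    ← ofReal_integral_eq_lintegral_ofReal hvi (Eventually.of_forall hv0),
    ← ofReal_integral_eq_lintegral_ofReal hwi (Eventually.of_forall hw0),
    ENNReal.ofReal_rpow_of_nonneg (integral_nonneg hu0) h1a.le,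
    ENNReal.ofReal_rpow_of_nonneg (integral_nonneg hv0) ha0.le,
    ← ENNReal.ofReal_mul (Real.rpow_nonneg (integral_nonneg hu0) _)] at key
  exact (ENNReal.ofReal_le_ofReal_iff (integral_nonneg hw0)).1 key

/-- Midpoint version. -/
theorem pl_mid {u v w : F → ℝ}
    (hu0 : ∀ x, 0 ≤ u x) (hv0 : ∀ x, 0 ≤ v x) (hw0 : ∀ x, 0 ≤ w x)
    (hum : Measurable u) (hvm : Measurable v) (hwm : Measurable w)
    (hui : Integrable u) (hvi : Integrable v) (hwi : Integrable w)
    (h : ∀ x y, u x * v y ≤ w ((1 / 2 : ℝ) • (x + y)) ^ 2) :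
    (∫ x, u x) * (∫ x, v x) ≤ (∫ x, w x) ^ 2 := by
  have key := pl_integral (a := 1 / 2) (by norm_num) (by norm_num) hu0 hv0 hw0 hum hvm hwm
    hui hvi hwi (fun x y => by
      have e : (1 - 1 / 2 : ℝ) • x + (1 / 2 : ℝ) • y = (1 / 2 : ℝ) • (x + y) := by
        rw [smul_add]; norm_num
      rw [e]
      have h1 : (1 - 1 / 2 : ℝ) = 1 / 2 := by norm_num
      rw [h1, ← Real.mul_rpow (hu0 x) (hv0 y), ← Real.sqrt_eq_rpow]
      calc Real.sqrt (u x * v y) ≤ Real.sqrt (w ((1 / 2 : ℝ) • (x + y)) ^ 2) :=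
            Real.sqrt_le_sqrt (h x y)
        _ = w ((1 / 2 : ℝ) • (x + y)) := Real.sqrt_sq (hw0 _))
  have h1 : (1 - 1 / 2 : ℝ) = 1 / 2 := by norm_num
  have iu : 0 ≤ ∫ x, u x := integral_nonneg hu0
  have iv : 0 ≤ ∫ x, v x := integral_nonneg hv0
  rw [h1, ← Real.mul_rpow iu iv, ← Real.sqrt_eq_rpow] at key
  have := pow_le_pow_left₀ (Real.sqrt_nonneg _) key 2
  rwa [Real.sq_sqrt (mul_nonneg iu iv)] at this

end Pool.Agent.Lib.MP_8d00da_gt.h42
end

section

/-!
# The Poincaré inequality for strongly log-concave densities, Lipschitz test functions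
-/

namespace Pool.Agent.Lib.MP_8d00da_gt.h42

open MeasureTheory Set Filter
open scoped Pointwise Topology NNReal

variable {F : Type*} [NormedAddCommGroup F] [InnerProductSpace ℝ F]

/-- The inf-convolution `inf_z ε f (x+z) + κ |z|^2 / 4`. -/
noncomputable def infc (κ ε : ℝ) (f : F → ℝ) (x : F) : ℝ :=
  ⨅ z : F, (ε * f (x + z) + κ * ‖z‖ ^ 2 / 4)

section infc

variable {κ ε A : ℝ} {f : F → ℝ} {L : ℝ≥0}

omit [InnerProductSpace ℝ F] in
lemma infc_bdd (hκ : 0 < κ) (hε : 0 ≤ ε) (hA : ∀ x, |f x| ≤ A) (x : F) :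
    BddBelow (range fun z : F => ε * f (x + z) + κ * ‖z‖ ^ 2 / 4) := by
  refine ⟨-(ε * A), ?_⟩
  rintro _ ⟨z, rfl⟩
  have h1 : -A ≤ f (x + z) := (abs_le.1 (hA _)).1
  have h2 : ε * (-A) ≤ ε * f (x + z) := mul_le_mul_of_nonneg_left h1 hε
  have h3 : 0 ≤ κ * ‖z‖ ^ 2 / 4 := by positivity
  simp only
  linarith

omit [InnerProductSpace ℝ F] in
lemma infc_le (hκ : 0 < κ) (hε : 0 ≤ ε) (hA : ∀ x, |f x| ≤ A) (x z : F) :
    infc κ ε f x ≤ ε * f (x + z) + κ * ‖z‖ ^ 2 / 4 :=
  ciInf_le (infc_bdd hκ hε hA x) z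

omit [InnerProductSpace ℝ F] in
lemma infc_le_self (hκ : 0 < κ) (hε : 0 ≤ ε) (hA : ∀ x, |f x| ≤ A) (x : F) :
    infc κ ε f x ≤ ε * f x := by
  simpa using infc_le hκ hε hA x 0

omit [InnerProductSpace ℝ F] in
lemma infc_ge (hκ : 0 < κ) (hε : 0 ≤ ε) (hf : LipschitzWith L f) (x : F) :
    ε * f x - ε ^ 2 * (L ^ 2 / κ) ≤ infc κ ε f x := by
  refine le_ciInf fun z => ?_
  have h1 : |f x - f (x + z)| ≤ L * ‖z‖ := by
    have := hf.dist_le_mul x (x + z)
    rw [Real.dist_eq, dist_eq_norm] at this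
    simpa using this
  have h2 : f x - f (x + z) ≤ L * ‖z‖ := (abs_le.1 h1).2
  have h3 : ε * (f x - f (x + z)) ≤ ε * (L * ‖z‖) := mul_le_mul_of_nonneg_left h2 hε
  have h4 : 0 ≤ κ * (‖z‖ / 2 - ε * L / κ) ^ 2 := by positivity
  have h5 : κ * (‖z‖ / 2 - ε * L / κ) ^ 2 = κ * ‖z‖ ^ 2 / 4 - ε * (L * ‖z‖) + ε ^ 2 * (L ^ 2 / κ) := by
    field_simp
    ring
  nlinarith

omit [InnerProductSpace ℝ F] in
lemma infc_lip (hκ : 0 < κ) (hε : 0 ≤ ε) (hA : ∀ x, |f x| ≤ A) (hf : LipschitzWith L f) :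
    Continuous (infc κ ε f) := by
  have key : ∀ x y : F, infc κ ε f x ≤ infc κ ε f y + ε * L * dist x y := by
    intro x y
    rw [← sub_le_iff_le_add]
    refine le_ciInf fun z => ?_
    have h1 := infc_le hκ hε hA x z
    have h2 : f (x + z) - f (y + z) ≤ L * dist x y := by
      have := hf.dist_le_mul (x + z) (y + z)
      rw [Real.dist_eq, dist_add_right] at this
      exact (abs_le.1 this).2
    have h3 : ε * (f (x + z) - f (y + z)) ≤ ε * (L * dist x y) :=
      mul_le_mul_of_nonneg_left h2 hε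
    nlinarith
  have hl : LipschitzWith (Real.toNNReal (ε * L)) (infc κ ε f) := by
    refine LipschitzWith.of_le_add_mul _ fun x y => ?_
    rw [Real.coe_toNNReal _ (by positivity)]
    exact key x y
  exact hl.continuous

/-- At a point of differentiability the second order loss is asymptotically at most
`|∇ f|^2 / κ`. -/
lemma infc_asymp (hκ : 0 < κ) (hf : LipschitzWith L f) {x : F}
    (hx : DifferentiableAt ℝ f x) {δ : ℝ} (hδ : 0 < δ) :
    ∃ ε0 > 0, ∀ ε, 0 < ε → ε < ε0 →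
      ε * f x - ε ^ 2 * ((‖fderiv ℝ f x‖ + δ) ^ 2 / κ) ≤ infc κ ε f x := by
  have h := hx.hasFDerivAt.isLittleO
  rw [Asymptotics.isLittleO_iff] at h
  have h2 := h hδ
  obtain ⟨r, hr, hball⟩ := Metric.eventually_nhds_iff.1 h2
  refine ⟨κ * r / (4 * L + 4), by positivity, fun ε hε hεr => ?_⟩
  refine le_ciInf fun z => ?_
  rcases lt_or_ge ‖z‖ r with hz | hz
  · have h3 := hball (y := x + z) (by simpa using hz)
    simp only [add_sub_cancel_left] at h3
    rw [Real.norm_eq_abs] at h3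
    have h4 := (abs_le.1 h3).1
    have h5 : -(‖fderiv ℝ f x‖ * ‖z‖) ≤ fderiv ℝ f x z := by
      have := (fderiv ℝ f x).le_opNorm z
      rw [Real.norm_eq_abs] at this
      exact (abs_le.1 this).1
    have h6 : f x - (‖fderiv ℝ f x‖ + δ) * ‖z‖ ≤ f (x + z) := by
      rw [add_mul]; linarith
    set g := ‖fderiv ℝ f x‖ + δ
    have h7 : ε * (f x - g * ‖z‖) ≤ ε * f (x + z) := mul_le_mul_of_nonneg_left h6 hε.le
    have h8 : 0 ≤ κ * (‖z‖ / 2 - ε * g / κ) ^ 2 := by positivity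
    have h9 : κ * (‖z‖ / 2 - ε * g / κ) ^ 2 =
        κ * ‖z‖ ^ 2 / 4 - ε * (g * ‖z‖) + ε ^ 2 * (g ^ 2 / κ) := by
      field_simp
      ring
    nlinarith
  · have h1 : |f x - f (x + z)| ≤ L * ‖z‖ := by
      have := hf.dist_le_mul x (x + z)
      rw [Real.dist_eq, dist_eq_norm] at this
      simpa using this
    have h2 : f x - f (x + z) ≤ L * ‖z‖ := (abs_le.1 h1).2
    have h3 : ε * (f x - f (x + z)) ≤ ε * (L * ‖z‖) := mul_le_mul_of_nonneg_left h2 hε.le
    have h4 : ε * (4 * L + 4) < κ * r := by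
      rwa [lt_div_iff₀ (by positivity)] at hεr
    have h5 : ε * (4 * L) ≤ κ * ‖z‖ := by nlinarith [NNReal.coe_nonneg L]
    have h6 : 0 ≤ ‖z‖ := norm_nonneg z
    have h7 : ε * (L * ‖z‖) ≤ κ * ‖z‖ ^ 2 / 4 := by nlinarith
    have h8 : 0 ≤ ε ^ 2 * ((‖fderiv ℝ f x‖ + δ) ^ 2 / κ) := by positivity
    nlinarith

end infc

lemma exp_ge_three {s : ℝ} (hs : |s| ≤ 1) : 1 + s + s ^ 2 / 2 - |s| ^ 3 ≤ Real.exp s := by
  have h := Real.exp_bound hs (n := 3) (by norm_num)
  simp only [Finset.sum_range_succ, Finset.sum_range_zero, Nat.factorial] at h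
  have h2 := (abs_le.1 h).1
  norm_num at h2
  have h3 : 0 ≤ |s| ^ 3 := by positivity
  nlinarith

/-- Elementary quadratic expansion used in the linearisation. -/
lemma quad_expand {V R C ε r : ℝ} (hε : 0 < ε) (hε1 : ε ≤ 1) (hV0 : 0 ≤ V) (hVC : V ≤ C)
    (hr0 : 0 ≤ r) (hrR : r ≤ R) (hR : R ≤ C) (hC : 0 ≤ C)
    (h : (1 + ε ^ 2 * (V / 2 - r) - ε ^ 3 * C) * (1 + ε ^ 2 * (V / 2) - ε ^ 3 * C) ≤ 1) :
    V ≤ r + ε * (2 * C + 6 * C ^ 2) := by
  set α := ε ^ 2 * (V / 2 - r) - ε ^ 3 * C with hα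
  set β := ε ^ 2 * (V / 2) - ε ^ 3 * C with hβ
  have h1 : α + β + α * β ≤ 0 := by
    have : (1 + α) * (1 + β) ≤ 1 := by
      rw [hα, hβ]; linarith
    nlinarith
  have hε3 : ε ^ 3 * C ≤ ε ^ 2 * C := by
    have : ε ^ 3 ≤ ε ^ 2 := by nlinarith [sq_nonneg ε]
    exact mul_le_mul_of_nonneg_right this hC
  have hε3' : 0 ≤ ε ^ 3 * C := by positivity
  have hε2 : 0 ≤ ε ^ 2 := by positivity
  have ha : |α| ≤ ε ^ 2 * (3 * C) := by
    rw [abs_le]
    constructor
    · rw [hα]; nlinarith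
    · rw [hα]; nlinarith
  have hb : |β| ≤ ε ^ 2 * (2 * C) := by
    rw [abs_le]
    constructor
    · rw [hβ]; nlinarith
    · rw [hβ]; nlinarith
  have hab : -(α * β) ≤ ε ^ 4 * (6 * C ^ 2) := by
    have h2 : |α * β| ≤ (ε ^ 2 * (3 * C)) * (ε ^ 2 * (2 * C)) := by
      rw [abs_mul]
      exact mul_le_mul ha hb (abs_nonneg _) (by positivity)
    have h3 := (abs_le.1 h2).1
    nlinarith
  have h4 : ε ^ 2 * (V - r) ≤ ε ^ 3 * (2 * C) + ε ^ 4 * (6 * C ^ 2) := by
    have : α + β = ε ^ 2 * (V - r) - ε ^ 3 * (2 * C) := by rw [hα, hβ]; ring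
    nlinarith
  have h5 : ε ^ 4 * (6 * C ^ 2) ≤ ε ^ 3 * (6 * C ^ 2) := by
    have : ε ^ 4 ≤ ε ^ 3 := by
      have h3 : 0 ≤ ε ^ 3 := by positivity
      nlinarith
    exact mul_le_mul_of_nonneg_right this (by positivity)
  have h6 : ε ^ 2 * (V - r) ≤ ε ^ 2 * (ε * (2 * C + 6 * C ^ 2)) := by nlinarith
  have h7 := le_of_mul_le_mul_left h6 (by positivity)
  linarith

variable [FiniteDimensional ℝ F] [MeasurableSpace F] [BorelSpace F]

/-- Centred version of the strong Poincaré inequality. -/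
theorem strong_poincare_centered {κ : ℝ} (hκ : 0 < κ) {ρ : F → ℝ} (hρ0 : ∀ x, 0 ≤ ρ x)
    (hρm : Measurable ρ) (hρi : Integrable ρ) (hρ1 : ∫ x, ρ x = 1)
    (hlc : ∀ x y, ρ x * ρ y * Real.exp (κ * ‖x - y‖ ^ 2 / 4) ≤ ρ ((1 / 2 : ℝ) • (x + y)) ^ 2)
    {f : F → ℝ} {L : ℝ≥0} (hf : LipschitzWith L f) {A : ℝ} (hA : ∀ x, |f x| ≤ A)
    (hmean : ∫ x, f x * ρ x = 0) :
    ∫ x, f x ^ 2 * ρ x ≤ (1 / κ) * ∫ x, ‖fderiv ℝ f x‖ ^ 2 * ρ x := by
  have hfm : Measurable f := hf.continuous.measurable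
  have hA0 : 0 ≤ A := (abs_nonneg (f 0)).trans (hA 0)
  set R : ℝ := L ^ 2 / κ with hR
  have hR0 : 0 ≤ R := by positivity
  -- integrability helper
  have hint : ∀ {g : F → ℝ} (_ : Measurable g) {M : ℝ} (_ : ∀ x, |g x| ≤ M),
      Integrable (fun x => g x * ρ x) := by
    intro g hg M hM
    exact hρi.bdd_mul hg.aestronglyMeasurable (Eventually.of_forall fun x => by
      rw [Real.norm_eq_abs]; exact hM x)
  set V : ℝ := ∫ x, f x ^ 2 * ρ x with hV
  have hV0 : 0 ≤ V := integral_nonneg fun x => mul_nonneg (sq_nonneg _) (hρ0 x)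
  -- the second order defect
  set r : ℝ → F → ℝ := fun ε x => (ε * f x - infc κ ε f x) / ε ^ 2 with hr
  have hr0 : ∀ ε, 0 < ε → ∀ x, 0 ≤ r ε x := by
    intro ε hε x
    exact div_nonneg (by linarith [infc_le_self hκ hε.le hA x]) (by positivity)
  have hrR : ∀ ε, 0 < ε → ∀ x, r ε x ≤ R := by
    intro ε hε x
    rw [hr]
    simp only
    rw [div_le_iff₀ (by positivity)]
    have := infc_ge hκ hε.le hf x
    nlinarith
  have hrm : ∀ ε, 0 < ε → Measurable (r ε) := by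
    intro ε hε
    have := (infc_lip hκ hε.le hA hf).measurable
    fun_prop
  set C : ℝ := A ^ 2 + R + A * R + (A + R) ^ 3 with hC
  have hC0 : 0 ≤ C := by positivity
  have hVC : V ≤ C := by
    have h1 : V ≤ ∫ x, A ^ 2 * ρ x := by
      refine integral_mono ?_ (hρi.const_mul _) fun x => ?_
      · refine hint (g := fun x => f x ^ 2) (by fun_prop) (M := A ^ 2) fun x => ?_
        rw [abs_of_nonneg (sq_nonneg _)]
        exact sq_le_sq' (abs_le.1 (hA x)).1 (abs_le.1 (hA x)).2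
      · exact mul_le_mul_of_nonneg_right
          (sq_le_sq' (abs_le.1 (hA x)).1 (abs_le.1 (hA x)).2) (hρ0 x)
    rw [integral_const_mul, hρ1, mul_one] at h1
    have : 0 ≤ R + A * R + (A + R) ^ 3 := by positivity
    linarith
  set ε1 : ℝ := min 1 (min (1 / (A + R + 1)) (1 / (4 * C + 1))) with hε1
  have hε1pos : 0 < ε1 := by positivity
  have main : ∀ ε, 0 < ε → ε ≤ ε1 → V ≤ (∫ x, r ε x * ρ x) + ε * (2 * C + 6 * C ^ 2) := by
    intro ε hε hεle
    have hε1' : ε ≤ 1 := hεle.trans (min_le_left _ _)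
    have hεAR : ε * (A + R) ≤ 1 := by
      have h1 : ε ≤ 1 / (A + R + 1) := hεle.trans ((min_le_right _ _).trans (min_le_left _ _))
      rw [le_div_iff₀ (by positivity)] at h1
      nlinarith
    have hεC : ε * (4 * C) ≤ 1 := by
      have h1 : ε ≤ 1 / (4 * C + 1) := hεle.trans ((min_le_right _ _).trans (min_le_right _ _))
      rw [le_div_iff₀ (by positivity)] at h1
      nlinarith
    have hQm : Measurable (infc κ ε f) := (infc_lip hκ hε.le hA hf).measurable
    have hQr : ∀ x, infc κ ε f x = ε * f x - ε ^ 2 * r ε x := by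
      intro x
      rw [hr]
      field_simp
      ring
    have hQabs : ∀ x, |infc κ ε f x| ≤ ε * (A + R) := by
      intro x
      rw [hQr]
      have h1 := (abs_le.1 (hA x)).1
      have h2 := (abs_le.1 (hA x)).2
      have h3 := hr0 ε hε x
      have h4 := hrR ε hε x
      have h5 : ε ^ 2 * r ε x ≤ ε * R := by
        have : ε ^ 2 * r ε x ≤ ε ^ 2 * R := mul_le_mul_of_nonneg_left h4 (by positivity)
        have h6 : ε ^ 2 * R ≤ ε * R := mul_le_mul_of_nonneg_right (by nlinarith) hR0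
        linarith
      have h7 : 0 ≤ ε ^ 2 * r ε x := by positivity
      rw [abs_le]
      constructor <;> nlinarith
    -- first integral
    have I1m : Measurable fun x => Real.exp (infc κ ε f x) := by fun_prop
    have I1i : Integrable fun x => Real.exp (infc κ ε f x) * ρ x :=
      hint I1m (M := Real.exp 1) fun x => by
        rw [abs_of_pos (Real.exp_pos _)]
        exact Real.exp_le_exp.2 (((le_abs_self _).trans (hQabs x)).trans hεAR)
    have I2i : Integrable fun x => Real.exp (-(ε * f x)) * ρ x :=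
      hint (g := fun x => Real.exp (-(ε * f x))) (by fun_prop) (M := Real.exp 1) fun x => by
        rw [abs_of_pos (Real.exp_pos _)]
        refine Real.exp_le_exp.2 ?_
        have h1 := (abs_le.1 (hA x)).1
        nlinarith
    have hPL : (∫ x, Real.exp (infc κ ε f x) * ρ x) * (∫ x, Real.exp (-(ε * f x)) * ρ x) ≤ 1 := by
      have := pl_mid (u := fun x => Real.exp (infc κ ε f x) * ρ x)
        (v := fun x => Real.exp (-(ε * f x)) * ρ x) (w := ρ)
        (fun x => mul_nonneg (Real.exp_pos _).le (hρ0 x))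
        (fun x => mul_nonneg (Real.exp_pos _).le (hρ0 x)) hρ0 (by fun_prop) (by fun_prop) hρm
        I1i I2i hρi (fun x y => by
          refine le_trans ?_ (hlc x y)
          have h1 := infc_le hκ hε.le hA x (y - x)
          rw [add_sub_cancel, norm_sub_rev] at h1
          have h2 : Real.exp (infc κ ε f x) * Real.exp (-(ε * f y)) ≤
              Real.exp (κ * ‖x - y‖ ^ 2 / 4) := by
            rw [← Real.exp_add]
            exact Real.exp_le_exp.2 (by linarith)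
          calc Real.exp (infc κ ε f x) * ρ x * (Real.exp (-(ε * f y)) * ρ y)
              = (ρ x * ρ y) * (Real.exp (infc κ ε f x) * Real.exp (-(ε * f y))) := by ring
            _ ≤ _ := mul_le_mul_of_nonneg_left h2 (mul_nonneg (hρ0 x) (hρ0 y)))
      rwa [hρ1, one_pow] at this
    have hri : Integrable fun x => r ε x * ρ x :=
      hint (hrm ε hε) (M := R) fun x => by
        rw [abs_of_nonneg (hr0 ε hε x)]; exact hrR ε hε x
    have hfi : Integrable fun x => f x * ρ x := hint hfm hA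
    have hf2i : Integrable fun x => f x ^ 2 * ρ x :=
      hint (g := fun x => f x ^ 2) (by fun_prop) (M := A ^ 2) fun x => by
        rw [abs_of_nonneg (sq_nonneg _)]
        exact sq_le_sq' (abs_le.1 (hA x)).1 (abs_le.1 (hA x)).2
    have L1 : 1 + ε ^ 2 * (V / 2 - ∫ x, r ε x * ρ x) - ε ^ 3 * C ≤
        ∫ x, Real.exp (infc κ ε f x) * ρ x := by
      have h1 : ∫ x, (ρ x + ε * (f x * ρ x) - ε ^ 2 * (r ε x * ρ x) + ε ^ 2 / 2 * (f x ^ 2 * ρ x)
          - ε ^ 3 * C * ρ x) ≤ ∫ x, Real.exp (infc κ ε f x) * ρ x := by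
        refine integral_mono ((((hρi.add (hfi.const_mul _)).sub (hri.const_mul _)).add
          (hf2i.const_mul _)).sub (hρi.const_mul _)) I1i fun x => ?_
        have hs := exp_ge_three ((hQabs x).trans hεAR)
        have hs3 : |infc κ ε f x| ^ 3 ≤ ε ^ 3 * (A + R) ^ 3 := by
          rw [← mul_pow]
          exact pow_le_pow_left₀ (abs_nonneg _) (hQabs x) 3
        have hs2 : ε ^ 2 * f x ^ 2 / 2 - ε ^ 3 * (A * R) ≤ infc κ ε f x ^ 2 / 2 := by
          rw [hQr]
          have h3 := hr0 ε hε x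
          have h4 := hrR ε hε x
          have h5 : f x * r ε x ≤ A * R := by
            calc f x * r ε x ≤ A * r ε x :=
                  mul_le_mul_of_nonneg_right (abs_le.1 (hA x)).2 h3
              _ ≤ A * R := mul_le_mul_of_nonneg_left h4 hA0
          have h6 : ε ^ 3 * (f x * r ε x) ≤ ε ^ 3 * (A * R) :=
            mul_le_mul_of_nonneg_left h5 (by positivity)
          nlinarith [sq_nonneg (ε ^ 2 * r ε x)]
        have hQ := hQr x
        have hfin : 1 + ε * f x - ε ^ 2 * r ε x + ε ^ 2 / 2 * f x ^ 2 - ε ^ 3 * C ≤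
            Real.exp (infc κ ε f x) := by
          have h7 : 0 ≤ ε ^ 3 * (A ^ 2 + R) := by positivity
          have h8 : ε ^ 3 * C = ε ^ 3 * (A ^ 2 + R) + ε ^ 3 * (A * R) + ε ^ 3 * (A + R) ^ 3 := by
            rw [hC]; ring
          rw [h8]
          linarith
        have := mul_le_mul_of_nonneg_right hfin (hρ0 x)
        simp only
        linarith
      refine le_trans (le_of_eq ?_) h1
      rw [integral_sub, integral_add, integral_sub, integral_add, integral_const_mul,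
        integral_const_mul, integral_const_mul, integral_const_mul, hρ1, hmean]
      · ring
      · exact hρi
      · exact hfi.const_mul _
      · exact hρi.add (hfi.const_mul _)
      · exact hri.const_mul _
      · exact (hρi.add (hfi.const_mul _)).sub (hri.const_mul _)
      · exact hf2i.const_mul _
      · exact ((hρi.add (hfi.const_mul _)).sub (hri.const_mul _)).add (hf2i.const_mul _)
      · exact hρi.const_mul _
    have L2 : 1 + ε ^ 2 * (V / 2) - ε ^ 3 * C ≤ ∫ x, Real.exp (-(ε * f x)) * ρ x := by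
      have h1 : ∫ x, (ρ x - ε * (f x * ρ x) + ε ^ 2 / 2 * (f x ^ 2 * ρ x)
          - ε ^ 3 * C * ρ x) ≤ ∫ x, Real.exp (-(ε * f x)) * ρ x := by
        refine integral_mono (((hρi.sub (hfi.const_mul _)).add
          (hf2i.const_mul _)).sub (hρi.const_mul _)) I2i fun x => ?_
        have hab : |-(ε * f x)| ≤ ε * (A + R) := by
          rw [abs_neg, abs_mul, abs_of_pos hε]
          exact mul_le_mul_of_nonneg_left ((hA x).trans (by linarith)) hε.le
        have hs := exp_ge_three (hab.trans hεAR)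
        have hs3 : |-(ε * f x)| ^ 3 ≤ ε ^ 3 * (A + R) ^ 3 := by
          rw [← mul_pow]
          exact pow_le_pow_left₀ (abs_nonneg _) hab 3
        have hfin : 1 - ε * f x + ε ^ 2 / 2 * f x ^ 2 - ε ^ 3 * C ≤
            Real.exp (-(ε * f x)) := by
          have h7 : 0 ≤ ε ^ 3 * (A ^ 2 + R + A * R) := by positivity
          have h8 : ε ^ 3 * C = ε ^ 3 * (A ^ 2 + R + A * R) + ε ^ 3 * (A + R) ^ 3 := by
            rw [hC]; ring
          rw [h8]
          nlinarith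
        have := mul_le_mul_of_nonneg_right hfin (hρ0 x)
        simp only
        linarith
      refine le_trans (le_of_eq ?_) h1
      rw [integral_sub, integral_add, integral_sub, integral_const_mul,
        integral_const_mul, integral_const_mul, hρ1, hmean]
      · ring
      · exact hρi
      · exact hfi.const_mul _
      · exact hρi.sub (hfi.const_mul _)
      · exact hf2i.const_mul _
      · exact (hρi.sub (hfi.const_mul _)).add (hf2i.const_mul _)
      · exact hρi.const_mul _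
    have hEr0 : 0 ≤ ∫ x, r ε x * ρ x :=
      integral_nonneg fun x => mul_nonneg (hr0 ε hε x) (hρ0 x)
    have hErR : ∫ x, r ε x * ρ x ≤ R := by
      have h1 : ∫ x, r ε x * ρ x ≤ ∫ x, R * ρ x :=
        integral_mono hri (hρi.const_mul _) fun x =>
          mul_le_mul_of_nonneg_right (hrR ε hε x) (hρ0 x)
      rwa [integral_const_mul, hρ1, mul_one] at h1
    have hRC : R ≤ C := by
      have : 0 ≤ A ^ 2 + A * R + (A + R) ^ 3 := by positivity
      linarith
    refine quad_expand hε hε1' hV0 hVC hEr0 hErR hRC hC0 ?_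
    have hε3 : ε ^ 3 * C ≤ ε * C := by
      have : ε ^ 3 ≤ ε := pow_le_of_le_one hε.le hε1' (by norm_num)
      exact mul_le_mul_of_nonneg_right this hC0
    have hε2 : ε ^ 2 * (∫ x, r ε x * ρ x) ≤ ε * C := by
      have h1 : ε ^ 2 * (∫ x, r ε x * ρ x) ≤ ε ^ 2 * C :=
        mul_le_mul_of_nonneg_left (hErR.trans hRC) (by positivity)
      have h2 : ε ^ 2 * C ≤ ε * C :=
        mul_le_mul_of_nonneg_right (pow_le_of_le_one hε.le hε1' (by norm_num)) hC0
      linarith
    have hp1 : 0 ≤ 1 + ε ^ 2 * (V / 2 - ∫ x, r ε x * ρ x) - ε ^ 3 * C := by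
      have : 0 ≤ ε ^ 2 * V := by positivity
      linarith
    have hp2 : 0 ≤ 1 + ε ^ 2 * (V / 2) - ε ^ 3 * C := by
      have : 0 ≤ ε ^ 2 * V := by positivity
      linarith
    calc _ ≤ (∫ x, Real.exp (infc κ ε f x) * ρ x) * (∫ x, Real.exp (-(ε * f x)) * ρ x) :=
          mul_le_mul L1 L2 hp2 (hp1.trans L1)
      _ ≤ 1 := hPL
  -- passage to the limit
  set G : F → ℝ := fun x => ‖fderiv ℝ f x‖ ^ 2 / κ with hG
  have hfdm : Measurable fun x => ‖fderiv ℝ f x‖ := (measurable_fderiv ℝ f).norm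
  have hfdL : ∀ x, ‖fderiv ℝ f x‖ ≤ L := fun x => norm_fderiv_le_of_lipschitz ℝ hf
  have hGR : ∀ x, |G x| ≤ R := by
    intro x
    rw [hG, hR, abs_of_nonneg (by positivity)]
    simp only
    gcongr
    exact hfdL x
  have hGm : Measurable G := by fun_prop
  have hGi : Integrable fun x => G x * ρ x := hint hGm hGR
  set εn : ℕ → ℝ := fun n => ε1 / (n + 1) with hεn
  have hεn0 : ∀ n, 0 < εn n := fun n => by positivity
  have hεn1 : ∀ n, εn n ≤ ε1 := fun n => by
    rw [hεn]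
    simp only
    rw [div_le_iff₀ (by positivity)]
    nlinarith [Nat.cast_nonneg (α := ℝ) n]
  have hεnlim : Tendsto εn atTop (𝓝 0) := by
    have := (tendsto_one_div_add_atTop_nhds_zero_nat (𝕜 := ℝ)).const_mul ε1
    simpa [hεn, div_eq_mul_inv] using this
  set sn : ℕ → F → ℝ := fun n x => max (r (εn n) x - G x) 0 with hsn
  have hsnm : ∀ n, Measurable (sn n) := fun n => ((hrm _ (hεn0 n)).sub hGm).max measurable_const
  have hsnR : ∀ n x, |sn n x| ≤ R := by
    intro n x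
    rw [hsn, abs_of_nonneg (le_max_right _ _)]
    simp only
    refine max_le ?_ hR0
    have h1 := hrR _ (hεn0 n) x
    have h2 : 0 ≤ G x := by positivity
    linarith
  have hsn_lim : Tendsto (fun n => ∫ x, sn n x * ρ x) atTop (𝓝 (∫ _x : F, (0 : ℝ))) := by
    refine tendsto_integral_of_dominated_convergence (fun x => R * ρ x)
      (fun n => ((hsnm n).mul hρm).aestronglyMeasurable) (hρi.const_mul _) ?_ ?_
    · intro n
      refine Eventually.of_forall fun x => ?_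
      rw [norm_mul, Real.norm_eq_abs, Real.norm_eq_abs, abs_of_nonneg (hρ0 x)]
      exact mul_le_mul_of_nonneg_right (hsnR n x) (hρ0 x)
    · filter_upwards [hf.ae_differentiableAt (μ := (volume : Measure F))] with x hx
      have h1 : Tendsto (fun n => sn n x) atTop (𝓝 0) := by
        rw [Metric.tendsto_atTop]
        intro e he
        -- choose δ
        obtain ⟨δ, hδ0, hδ⟩ : ∃ δ > 0, (‖fderiv ℝ f x‖ + δ) ^ 2 / κ < G x + e := by
          have hc : ContinuousAt (fun δ : ℝ => (‖fderiv ℝ f x‖ + δ) ^ 2 / κ) 0 := by fun_prop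
          have h3 : (fun δ : ℝ => (‖fderiv ℝ f x‖ + δ) ^ 2 / κ) 0 < G x + e := by
            simp only [add_zero, hG]; linarith
          have h4 : ∀ᶠ δ in 𝓝 (0 : ℝ), (‖fderiv ℝ f x‖ + δ) ^ 2 / κ < G x + e :=
            hc.eventually (gt_mem_nhds h3)
          have h5 : ∀ᶠ δ in 𝓝[>] (0 : ℝ), (‖fderiv ℝ f x‖ + δ) ^ 2 / κ < G x + e :=
            h4.filter_mono nhdsWithin_le_nhds
          obtain ⟨δ, hδ, hδ0⟩ := (h5.and self_mem_nhdsWithin).exists
          exact ⟨δ, hδ0, hδ⟩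
        obtain ⟨ε0, hε0, hall⟩ := infc_asymp hκ hf hx hδ0
        have h6 : ∀ᶠ n in atTop, εn n < ε0 := hεnlim.eventually (gt_mem_nhds hε0)
        obtain ⟨N, hN⟩ := eventually_atTop.1 h6
        refine ⟨N, fun n hn => ?_⟩
        have h7 := hall _ (hεn0 n) (hN n hn)
        have h8 : r (εn n) x ≤ (‖fderiv ℝ f x‖ + δ) ^ 2 / κ := by
          rw [hr]
          simp only
          rw [div_le_iff₀ (by have := hεn0 n; positivity)]
          linarith
        rw [Real.dist_eq, sub_zero, abs_of_nonneg (le_max_right _ _)]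
        refine max_lt ?_ he
        linarith
      simpa using h1.mul_const (ρ x)
  rw [integral_zero] at hsn_lim
  have hfinal : ∀ n, V ≤ (∫ x, G x * ρ x) + (∫ x, sn n x * ρ x) + εn n * (2 * C + 6 * C ^ 2) := by
    intro n
    have h1 := main _ (hεn0 n) (hεn1 n)
    have h2 : ∫ x, r (εn n) x * ρ x ≤ (∫ x, G x * ρ x) + (∫ x, sn n x * ρ x) := by
      rw [← integral_add hGi (hint (hsnm n) (hsnR n))]
      refine integral_mono (hint (hrm _ (hεn0 n)) (M := R) fun x => by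
        rw [abs_of_nonneg (hr0 _ (hεn0 n) x)]; exact hrR _ (hεn0 n) x)
        (hGi.add (hint (hsnm n) (hsnR n))) fun x => ?_
      have h3 : r (εn n) x ≤ G x + sn n x := by
        have := le_max_left (r (εn n) x - G x) 0
        rw [hsn]
        simp only
        linarith
      have := mul_le_mul_of_nonneg_right h3 (hρ0 x)
      simp only
      linarith
    linarith
  have hlim : Tendsto (fun n => (∫ x, G x * ρ x) + (∫ x, sn n x * ρ x) +
      εn n * (2 * C + 6 * C ^ 2)) atTop (𝓝 (∫ x, G x * ρ x)) := by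
    have := (hsn_lim.const_add (∫ x, G x * ρ x)).add (hεnlim.mul_const (2 * C + 6 * C ^ 2))
    simpa using this
  have hVG : V ≤ ∫ x, G x * ρ x := ge_of_tendsto' hlim hfinal
  refine hVG.trans (le_of_eq ?_)
  rw [← integral_const_mul]
  refine integral_congr_ae (Eventually.of_forall fun x => ?_)
  simp only [hG]
  ring

/-- **Poincaré inequality for strongly log-concave densities** (bounded Lipschitz functions). -/
theorem strong_poincare {κ : ℝ} (hκ : 0 < κ) {ρ : F → ℝ} (hρ0 : ∀ x, 0 ≤ ρ x)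
    (hρm : Measurable ρ) (hρi : Integrable ρ)
    (hlc : ∀ x y, ρ x * ρ y * Real.exp (κ * ‖x - y‖ ^ 2 / 4) ≤ ρ ((1 / 2 : ℝ) • (x + y)) ^ 2)
    {f : F → ℝ} {L : ℝ≥0} (hf : LipschitzWith L f) {A : ℝ} (hA : ∀ x, |f x| ≤ A)
    {m : ℝ} (hm : ∫ x, f x * ρ x = m * ∫ x, ρ x) :
    ∫ x, (f x - m) ^ 2 * ρ x ≤ (1 / κ) * ∫ x, ‖fderiv ℝ f x‖ ^ 2 * ρ x := by
  set Z : ℝ := ∫ x, ρ x with hZ
  have hZ0 : 0 ≤ Z := integral_nonneg hρ0
  rcases eq_or_lt_of_le hZ0 with h0 | hpos
  · have hae : ρ =ᵐ[volume] 0 := by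
      rw [eq_comm] at h0
      exact (integral_eq_zero_iff_of_nonneg hρ0 hρi).1 h0
    have e1 : ∫ x, (f x - m) ^ 2 * ρ x = 0 := by
      rw [integral_eq_zero_of_ae]
      filter_upwards [hae] with x hx
      rw [hx]; simp
    rw [e1]
    have : 0 ≤ ∫ x, ‖fderiv ℝ f x‖ ^ 2 * ρ x :=
      integral_nonneg fun x => mul_nonneg (sq_nonneg _) (hρ0 x)
    positivity
  · have hfi : Integrable fun x => f x * ρ x :=
      hρi.bdd_mul hf.continuous.aestronglyMeasurable (Eventually.of_forall fun x => by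
        rw [Real.norm_eq_abs]; exact hA x)
    have key := strong_poincare_centered (κ := κ) hκ (ρ := fun x => Z⁻¹ * ρ x)
      (fun x => mul_nonneg (by positivity) (hρ0 x)) (by fun_prop) (hρi.const_mul _)
      (by rw [integral_const_mul]; exact inv_mul_cancel₀ hpos.ne')
      (fun x y => by
        calc Z⁻¹ * ρ x * (Z⁻¹ * ρ y) * Real.exp (κ * ‖x - y‖ ^ 2 / 4)
            = Z⁻¹ ^ 2 * (ρ x * ρ y * Real.exp (κ * ‖x - y‖ ^ 2 / 4)) := by ring
          _ ≤ Z⁻¹ ^ 2 * ρ ((1 / 2 : ℝ) • (x + y)) ^ 2 :=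
              mul_le_mul_of_nonneg_left (hlc x y) (by positivity)
          _ = _ := by ring)
      (f := fun x => f x - m) (L := L) (by
        refine LipschitzWith.of_dist_le_mul fun x y => ?_
        rw [Real.dist_eq]
        have := hf.dist_le_mul x y
        rw [Real.dist_eq] at this
        simpa using this)
      (A := A + |m|) (fun x => (abs_sub _ _).trans (by linarith [hA x]))
      (by
        have e : (fun x => (f x - m) * (Z⁻¹ * ρ x)) = fun x => Z⁻¹ * (f x * ρ x - m * ρ x) := by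
          ext x; ring
        rw [e, integral_const_mul, integral_sub hfi (hρi.const_mul _), hm, integral_const_mul, ← hZ]
        simp)
    have e1 : (fun x => (f x - m) ^ 2 * (Z⁻¹ * ρ x)) = fun x => Z⁻¹ * ((f x - m) ^ 2 * ρ x) := by
      ext x; ring
    have e2 : (fun x => ‖fderiv ℝ (fun x => f x - m) x‖ ^ 2 * (Z⁻¹ * ρ x)) =
        fun x => Z⁻¹ * (‖fderiv ℝ f x‖ ^ 2 * ρ x) := by
      ext x
      rw [fderiv_sub_const]; ring
    rw [e1, e2, integral_const_mul, integral_const_mul] at key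
    have h2 : Z⁻¹ * ∫ x, (f x - m) ^ 2 * ρ x ≤
        Z⁻¹ * ((1 / κ) * ∫ x, ‖fderiv ℝ f x‖ ^ 2 * ρ x) := by
      calc _ ≤ _ := key
        _ = _ := by ring
    exact le_of_mul_le_mul_left h2 (by positivity)

end Pool.Agent.Lib.MP_8d00da_gt.h42
end
end

section

/-! # words: linearity, concatenation, sums over words -/

open scoped BigOperators InnerProductSpace
open Finset

namespace Pool.Agent.Lib.MP_8d00da_gt.h62a

variable {ι : Type} [Fintype ι] {H : Type*} [NormedAddCommGroup H] [InnerProductSpace ℝ H]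
variable (S : Sys ι H)

theorem Sys.word_nil (g : H) : S.word [] g = g := rfl

theorem Sys.word_cons (i : ι) (L : List ι) (g : H) : S.word (i :: L) g = S.T i (S.word L g) := rfl

theorem Sys.word_append (L L' : List ι) (g : H) : S.word (L ++ L') g = S.word L (S.word L' g) := by
  induction L with
  | nil => rfl
  | cons i L ih => simp [Sys.word, ih]

theorem Sys.word_add (L : List ι) (g h : H) : S.word L (g + h) = S.word L g + S.word L h := by
  induction L with
  | nil => rfl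
  | cons i L ih => simp [Sys.word, ih]

theorem Sys.word_smul (L : List ι) (c : ℝ) (g : H) : S.word L (c • g) = c • S.word L g := by
  induction L with
  | nil => rfl
  | cons i L ih => simp [Sys.word, ih]

theorem Sys.word_sub (L : List ι) (g h : H) : S.word L (g - h) = S.word L g - S.word L h := by
  induction L with
  | nil => rfl
  | cons i L ih => simp [Sys.word, ih]

theorem Sys.xw_append (L L' : List ι) (g : H) (hL : L ≠ []) :
    S.xw (L ++ L') g = S.xw L (S.word L' g) := by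
  cases L with
  | nil => exact absurd rfl hL
  | cons i L => simp [Sys.xw, Sys.word_append]

theorem Sys.xw_add (L : List ι) (g h : H) : S.xw L (g + h) = S.xw L g + S.xw L h := by
  cases L with
  | nil => simp [Sys.xw]
  | cons i L => simp [Sys.xw, Sys.word_add, inner_add_right]

theorem Sys.xw_smul (L : List ι) (c : ℝ) (g : H) : S.xw L (c • g) = c * S.xw L g := by
  cases L with
  | nil => simp [Sys.xw]
  | cons i L => simp [Sys.xw, Sys.word_smul, inner_smul_right]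

theorem Sys.xw_sub (L : List ι) (g h : H) : S.xw L (g - h) = S.xw L g - S.xw L h := by
  cases L with
  | nil => simp [Sys.xw]
  | cons i L => simp [Sys.xw, Sys.word_sub, inner_sub_right]

/-- sums over words of length `k + l` split. -/
theorem sum_append (k l : ℕ) (F : List ι → ℝ) :
    ∑ I : Fin (k + l) → ι, F (List.ofFn I)
      = ∑ A : Fin k → ι, ∑ B : Fin l → ι, F (List.ofFn A ++ List.ofFn B) := by
  rw [← (Fin.appendEquiv (α := ι) k l).sum_comp, Fintype.sum_prod_type]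
  simp [Fin.appendEquiv]

/-- first letter split. -/
theorem sum_cons (k : ℕ) (F : List ι → ℝ) :
    ∑ I : Fin (k + 1) → ι, F (List.ofFn I)
      = ∑ i : ι, ∑ B : Fin k → ι, F (i :: List.ofFn B) := by
  rw [← (Fin.consEquiv (fun _ : Fin (k + 1) => ι)).sum_comp, Fintype.sum_prod_type]
  simp [Fin.consEquiv]

theorem Sys.a_zero (g : H) : S.a 0 g = ‖g‖ ^ 2 := by
  simp [Sys.a, Sys.word]

theorem Sys.a_nonneg (k : ℕ) (g : H) : 0 ≤ S.a k g := by
  unfold Sys.a; positivity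

theorem Sys.al_nonneg (k : ℕ) (g : H) : 0 ≤ S.al k g := by
  unfold Sys.al; positivity

theorem Sys.zz_nonneg (k : ℕ) (g : H) : 0 ≤ S.zz k g := by
  unfold Sys.zz; positivity

theorem Sys.a_smul (k : ℕ) (c : ℝ) (g : H) : S.a k (c • g) = c ^ 2 * S.a k g := by
  simp [Sys.a, Sys.word_smul, norm_smul, mul_pow, Finset.mul_sum]

theorem Sys.a_add (k l : ℕ) (g : H) :
    S.a (k + l) g = ∑ B : Fin l → ι, S.a k (S.word (List.ofFn B) g) := by
  unfold Sys.a
  rw [sum_append k l (fun L => ‖S.word L g‖ ^ 2), Finset.sum_comm]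
  simp [Sys.word_append]

theorem Sys.a_succ (k : ℕ) (g : H) :
    S.a (k + 1) g = ∑ B : Fin k → ι, ∑ i, ‖S.T i (S.word (List.ofFn B) g)‖ ^ 2 := by
  unfold Sys.a
  rw [sum_cons k (fun L => ‖S.word L g‖ ^ 2), Finset.sum_comm]
  rfl

theorem Sys.a_mul_le (k l : ℕ) (c : ℝ) (h : ∀ g, S.a k g ≤ c * ‖g‖ ^ 2) (g : H) :
    S.a (k + l) g ≤ c * S.a l g := by
  rw [Sys.a_add]
  conv_rhs => rw [Sys.a, Finset.mul_sum]
  exact Finset.sum_le_sum fun B _ => h _

theorem Sys.a_bound (k : ℕ) (g : H) : S.kap * S.a (k + 1) g ≤ S.a k g := by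
  rw [Sys.a_succ, Finset.mul_sum, Sys.a]
  exact Finset.sum_le_sum fun B _ => S.bound _

private theorem sum3 {α β : Type*} [Fintype α] [Fintype β] (f : β → β → α → ℝ) :
    ∑ i, ∑ j, ∑ B, f i j B = ∑ B, ∑ i, ∑ j, f i j B := by
  rw [show (∑ i, ∑ j, ∑ B, f i j B) = ∑ i, ∑ B, ∑ j, f i j B from
    sum_congr rfl fun i _ => sum_comm, sum_comm]

/-- the chain inequality. -/
theorem Sys.a_chain (k : ℕ) (g : H) :
    S.a (k + 1) g ^ 2 ≤ (S.a k g - S.kap * S.a (k + 1) g)
      * (S.a (k + 2) g - S.al k g + S.zz k g) := by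
  set w : (Fin k → ι) → H := fun B => S.word (List.ofFn B) g with hw
  have h1 : S.a (k + 1) g = ∑ B, ∑ i, ‖S.T i (w B)‖ ^ 2 := S.a_succ k g
  have h0 : S.a k g = ∑ B, ‖w B‖ ^ 2 := rfl
  have h2 : S.a (k + 2) g = ∑ B, ∑ i, ∑ j, ‖S.T i (S.T j (w B))‖ ^ 2 := by
    unfold Sys.a
    rw [sum_cons (k + 1) (fun L => ‖S.word L g‖ ^ 2)]
    simp only [Sys.word]
    have : ∀ i, ∑ B : Fin (k + 1) → ι, ‖S.T i (S.word (List.ofFn B) g)‖ ^ 2
        = ∑ j, ∑ B : Fin k → ι, ‖S.T i (S.T j (w B))‖ ^ 2 := fun i =>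
      sum_cons k (fun L => ‖S.T i (S.word L g)‖ ^ 2)
    simp only [this]
    exact sum3 _
  have hz : S.zz k g = ∑ B, ∑ i, ∑ j, ⟪S.x i, S.T j (w B)⟫_ℝ ^ 2 := by
    unfold Sys.zz
    rw [sum_cons (k + 1) (fun L => S.xw L g ^ 2)]
    simp only [Sys.xw]
    have : ∀ i, ∑ B : Fin (k + 1) → ι, ⟪S.x i, S.word (List.ofFn B) g⟫_ℝ ^ 2
        = ∑ j, ∑ B : Fin k → ι, ⟪S.x i, S.T j (w B)⟫_ℝ ^ 2 := fun i =>
      sum_cons k (fun L => ⟪S.x i, S.word L g⟫_ℝ ^ 2)
    simp only [this]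
    exact sum3 _
  have hal : S.al k g = ∑ B, (∑ i, ∑ j, ‖S.T i (S.T j (w B)) - S.T j (S.T i (w B))‖ ^ 2) / 4 := rfl
  -- the three sums
  set A : (Fin k → ι) → ℝ := fun B => ∑ i, ‖S.T i (w B)‖ ^ 2 with hA
  set b : (Fin k → ι) → ℝ := fun B => ‖w B‖ ^ 2 - S.kap * A B with hb
  set d : (Fin k → ι) → ℝ := fun B =>
    (∑ i, ∑ j, ‖S.T i (S.T j (w B)) + S.T j (S.T i (w B))‖ ^ 2) / 4
      + (∑ i, ∑ j, (⟪S.x i, S.T j (w B)⟫_ℝ + ⟪S.x j, S.T i (w B)⟫_ℝ) ^ 2) / 4 with hd
  have hb0 : ∀ B, 0 ≤ b B := fun B => by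
    have := S.bound (w B)
    simp only [hb, hA]; linarith
  have hd0 : ∀ B, 0 ≤ d B := fun B => by simp only [hd]; positivity
  have hcs : (∑ B, A B) ^ 2 ≤ (∑ B, b B) * ∑ B, d B :=
    Finset.sum_sq_le_sum_mul_sum_of_sq_le_mul univ (fun B _ => hb0 B) (fun B _ => hd0 B)
      (fun B _ => S.chain (w B))
  have hbs : ∑ B, b B = S.a k g - S.kap * S.a (k + 1) g := by
    rw [h0, h1, Finset.mul_sum, ← Finset.sum_sub_distrib]
  have hds : ∑ B, d B ≤ S.a (k + 2) g - S.al k g + S.zz k g := by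
    rw [h2, hal, hz, ← Finset.sum_sub_distrib, ← Finset.sum_add_distrib]
    refine Finset.sum_le_sum fun B _ => ?_
    have e1 : ∑ i, ∑ j, ‖S.T i (S.T j (w B)) + S.T j (S.T i (w B))‖ ^ 2
        = 4 * (∑ i, ∑ j, ‖S.T i (S.T j (w B))‖ ^ 2)
          - ∑ i, ∑ j, ‖S.T i (S.T j (w B)) - S.T j (S.T i (w B))‖ ^ 2 := by
      have hp : ∀ i j, ‖S.T i (S.T j (w B)) + S.T j (S.T i (w B))‖ ^ 2
          = 2 * ‖S.T i (S.T j (w B))‖ ^ 2 + 2 * ‖S.T j (S.T i (w B))‖ ^ 2
            - ‖S.T i (S.T j (w B)) - S.T j (S.T i (w B))‖ ^ 2 := fun i j => by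
        have := parallelogram_law_with_norm ℝ (S.T i (S.T j (w B))) (S.T j (S.T i (w B)))
        nlinarith [this]
      have hc : ∑ i, ∑ j, ‖S.T j (S.T i (w B))‖ ^ 2 = ∑ i, ∑ j, ‖S.T i (S.T j (w B))‖ ^ 2 :=
        Finset.sum_comm
      calc ∑ i, ∑ j, ‖S.T i (S.T j (w B)) + S.T j (S.T i (w B))‖ ^ 2
          = ∑ i, ∑ j, (2 * ‖S.T i (S.T j (w B))‖ ^ 2 + 2 * ‖S.T j (S.T i (w B))‖ ^ 2
            - ‖S.T i (S.T j (w B)) - S.T j (S.T i (w B))‖ ^ 2) := by
              simp only [hp]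
        _ = _ := by
              simp only [Finset.sum_add_distrib, Finset.sum_sub_distrib, ← Finset.mul_sum, hc]
              ring
    have e2 : ∑ i, ∑ j, (⟪S.x i, S.T j (w B)⟫_ℝ + ⟪S.x j, S.T i (w B)⟫_ℝ) ^ 2
        ≤ 4 * ∑ i, ∑ j, ⟪S.x i, S.T j (w B)⟫_ℝ ^ 2 := by
      have hc : ∑ i, ∑ j, ⟪S.x j, S.T i (w B)⟫_ℝ ^ 2 = ∑ i, ∑ j, ⟪S.x i, S.T j (w B)⟫_ℝ ^ 2 :=
        Finset.sum_comm
      calc ∑ i, ∑ j, (⟪S.x i, S.T j (w B)⟫_ℝ + ⟪S.x j, S.T i (w B)⟫_ℝ) ^ 2
          ≤ ∑ i, ∑ j, (2 * ⟪S.x i, S.T j (w B)⟫_ℝ ^ 2 + 2 * ⟪S.x j, S.T i (w B)⟫_ℝ ^ 2) :=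
            Finset.sum_le_sum fun i _ => Finset.sum_le_sum fun j _ => by
              nlinarith [sq_nonneg (⟪S.x i, S.T j (w B)⟫_ℝ - ⟪S.x j, S.T i (w B)⟫_ℝ)]
        _ = 4 * ∑ i, ∑ j, ⟪S.x i, S.T j (w B)⟫_ℝ ^ 2 := by
              simp only [Finset.sum_add_distrib, ← Finset.mul_sum, hc]
              ring
    simp only [hd]
    rw [e1]
    linarith
  calc S.a (k + 1) g ^ 2 = (∑ B, A B) ^ 2 := by rw [h1]
    _ ≤ (∑ B, b B) * ∑ B, d B := hcs
    _ ≤ (S.a k g - S.kap * S.a (k + 1) g) * (S.a (k + 2) g - S.al k g + S.zz k g) := by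
        rw [hbs]
        exact mul_le_mul_of_nonneg_left hds (by rw [← hbs]; exact Finset.sum_nonneg fun B _ => hb0 B)

end Pool.Agent.Lib.MP_8d00da_gt.h62a
end
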