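import Mathlib
import Pool.Agent.Lib.MP_8d00da_gt.h42k.KDefs
import Pool.Agent.Lib.MP_8d00da_gt.h25.Ker
import Pool.Agent.Lib.MP_8d00da_gt.h62a.Defs
import Pool.Agent.Lib.MP_8d00da_gt.h94s.Sym

section

/-!
# Interface definitions
-/

namespace Pool.Agent.Lib.MP_8d00da_gt.h42k

open MeasureTheory Set Filter
open scoped Topology NNReal ENNReal ContDiff

/-- `log (n + 16)`. -/
noncomputable def ln (n : ℕ) : ℝ := Real.log (n + 16)

/-- `log log (n + 16)`; at least `1`. -/
noncomputable def lln (n : ℕ) : ℝ := Real.log (Real.log (n + 16))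

/-- The quadratic KLS inequality with constant `K` for all nice potentials on `ι → ℝ` with
covariance at most the identity (diagonal quadratic forms; by rotation all quadratic forms). -/
def QKP (K : ℝ) (ι : Type) [Fintype ι] [DecidableEq ι] : Prop :=
  ∀ (κ M : ℝ) (V : (ι → ℝ) → ℝ), Nice κ M V → CLe V 1 → ∀ t : ι → ℝ,
    var V (fun x => ∑ i, t i * (x i - mn V i) ^ 2) ≤ K * ∑ i, t i ^ 2

end Pool.Agent.Lib.MP_8d00da_gt.h42k
end

section

section

namespace Pool.Agent.Lib.MP_8d00da_gt.h25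
end Pool.Agent.Lib.MP_8d00da_gt.h25
namespace Pool.Agent.Lib.MP_8d00da_gt.h42
end Pool.Agent.Lib.MP_8d00da_gt.h42
namespace Pool.Agent.Lib.MP_8d00da_gt.h42s
end Pool.Agent.Lib.MP_8d00da_gt.h42s
namespace Pool.Agent.Lib.MP_8d00da_gt.h42o
end Pool.Agent.Lib.MP_8d00da_gt.h42o


/-!
# Convex sets of finite volume
-/

namespace Pool.Agent.Lib.MP_8d00da_gt.h97r

open MeasureTheory Set Filter
open Pool.Agent.Lib.MP_8d00da_gt.h25 Pool.Agent.Lib.MP_8d00da_gt.h42
open Pool.Agent.Lib.MP_8d00da_gt.h42s Pool.Agent.Lib.MP_8d00da_gt.h42o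
open scoped Topology NNReal

variable {F : Type*} [NormedAddCommGroup F] [InnerProductSpace ℝ F]
    [FiniteDimensional ℝ F] [MeasurableSpace F] [BorelSpace F]


/-- Let `ball z r ⊆ K`, `x ∈ K`, `D = ‖x - z‖`. For `a ∈ [0, 1/2]` the ball with centre
`(1 - a) z + a x` and radius `r / 2` is contained in `K` (it lies in `(1 - a) ball z r + a x`). For
`a_j = j r / D`, `0 ≤ j ≤ D / (2 r)`, these balls are disjoint, so
`(D / (2 r)) vol (ball 0 (r / 2)) ≤ vol K`, which bounds `D`. -/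
theorem convex_bounded {K : Set F} (hK : Convex ℝ K) (hKm : MeasurableSet K)
    (hfin : volume K ≠ ⊤) {z : F} {r : ℝ} (hr : 0 < r) (hball : Metric.ball z r ⊆ K) :
    ∃ R : ℝ, 0 < R ∧ ∀ x ∈ K, ‖x - z‖ ≤ R := by
  set v : ENNReal := volume (Metric.ball (0 : F) (r / 2)) with hv
  have hv0 : v ≠ 0 := (Metric.measure_ball_pos volume 0 (by positivity)).ne'
  obtain ⟨N, hN⟩ : ∃ N : ℕ, volume K < N * v := by
    obtain ⟨N, hN⟩ := ENNReal.exists_nat_mul_gt hv0 hfin
    exact ⟨N, hN⟩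
  refine ⟨2 * r * (N + 1), by positivity, fun x hx => ?_⟩
  by_contra hcon
  rw [not_le] at hcon
  set D := ‖x - z‖ with hD
  have hD0 : 0 < D := lt_trans (by positivity) hcon
  set c : ℕ → F := fun j => z + (j * r / D) • (x - z) with hc
  have ha : ∀ j : ℕ, j < N → (j * r / D : ℝ) ≤ 1 / 2 := by
    intro j hj
    rw [div_le_iff₀ hD0]
    have h1 : (j : ℝ) ≤ N := by exact_mod_cast hj.le
    nlinarith
  have hsub : ∀ j : ℕ, j < N → Metric.ball (c j) (r / 2) ⊆ K := by
    intro j hj y hy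
    set a : ℝ := j * r / D with hadef
    have ha1 : a ≤ 1 / 2 := ha j hj
    have ha0 : 0 ≤ a := by positivity
    have h1a : 0 < 1 - a := by linarith
    set w : F := (1 - a)⁻¹ • (y - a • x) with hw
    have hwz : w - z = (1 - a)⁻¹ • (y - c j) := by
      have h2 : z = (1 - a)⁻¹ • ((1 - a) • z) := by
        rw [smul_smul, inv_mul_cancel₀ h1a.ne', one_smul]
      have h3 : y - c j = (y - a • x) - (1 - a) • z := by
        show y - (z + a • (x - z)) = (y - a • x) - (1 - a) • z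
        module
      rw [h3, smul_sub, ← h2]
    have hwK : w ∈ K := by
      apply hball
      rw [Metric.mem_ball, dist_eq_norm, hwz, norm_smul, Real.norm_of_nonneg (inv_nonneg.2 h1a.le)]
      rw [Metric.mem_ball, dist_eq_norm] at hy
      have h4 : (1 - a)⁻¹ ≤ 2 := by
        rw [inv_le_comm₀ h1a two_pos]
        linarith
      calc (1 - a)⁻¹ * ‖y - c j‖ ≤ 2 * ‖y - c j‖ := by gcongr
        _ < r := by linarith
    have hy2 : y = (1 - a) • w + a • x := by
      rw [hw, smul_smul, mul_inv_cancel₀ h1a.ne', one_smul]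
      module
    rw [hy2]
    exact hK hwK hx h1a.le ha0 (by ring)
  have hdisj : ∀ i j : ℕ, i ≠ j → Disjoint (Metric.ball (c i) (r / 2)) (Metric.ball (c j) (r / 2)) := by
    intro i j hij
    apply Metric.ball_disjoint_ball
    have h1 : c i - c j = (((i : ℝ) - j) * r / D) • (x - z) := by
      show (z + (i * r / D : ℝ) • (x - z)) - (z + (j * r / D : ℝ) • (x - z)) = _
      module
    have h2 : (1 : ℝ) ≤ |(i : ℝ) - j| := by
      have h3 : (1 : ℤ) ≤ |(i : ℤ) - j| := Int.one_le_abs (by omega)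
      exact_mod_cast h3
    rw [dist_eq_norm, h1, norm_smul, Real.norm_eq_abs, abs_div, abs_mul, abs_of_pos hr,
      abs_of_pos hD0, ← hD, div_mul_cancel₀ _ hD0.ne']
    nlinarith
  have hunion : (⋃ j ∈ Finset.range N, Metric.ball (c j) (r / 2)) ⊆ K := by
    intro y hy
    simp only [mem_iUnion, exists_prop, Finset.mem_range] at hy
    obtain ⟨j, hj, hy⟩ := hy
    exact hsub j hj hy
  have hmeas : volume (⋃ j ∈ Finset.range N, Metric.ball (c j) (r / 2)) = N * v := by
    rw [measure_biUnion_finset (fun i _ j _ hij => hdisj i j hij)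
      (fun j _ => measurableSet_ball)]
    have h1 : ∀ j ∈ Finset.range N, volume (Metric.ball (c j) (r / 2)) = v := by
      intro j _
      rw [hv]
      exact Measure.addHaar_ball_center volume (c j) (r / 2)
    rw [Finset.sum_congr rfl h1, Finset.sum_const, Finset.card_range, nsmul_eq_mul]
  have h2 := measure_mono (μ := (volume : Measure F)) hunion
  rw [hmeas] at h2
  exact absurd (hN.trans_le h2) (lt_irrefl _)

/-- A convex set of positive volume contains a ball: otherwise its interior is empty and it is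
contained in its frontier, which is a null set (`Convex.addHaar_frontier`). -/
theorem convex_ball {K : Set F} (hK : Convex ℝ K) (hpos : volume K ≠ 0) :
    ∃ (z : F) (r : ℝ), 0 < r ∧ Metric.ball z r ⊆ K := by
  have hne : (interior K).Nonempty := by
    by_contra h
    rw [not_nonempty_iff_eq_empty] at h
    apply hpos
    have h1 : K ⊆ frontier K := by
      intro x hx
      rw [frontier, h, sdiff_empty]
      exact subset_closure hx
    exact measure_mono_null h1 (hK.addHaar_frontier volume)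
  obtain ⟨z, hz⟩ := hne
  obtain ⟨r, hr, hb⟩ := Metric.isOpen_iff.1 isOpen_interior z hz
  exact ⟨z, r, hr, hb.trans interior_subset⟩

end Pool.Agent.Lib.MP_8d00da_gt.h97r
end

section

namespace Pool.Agent.Lib.MP_8d00da_gt.h25
end Pool.Agent.Lib.MP_8d00da_gt.h25
namespace Pool.Agent.Lib.MP_8d00da_gt.h42s
end Pool.Agent.Lib.MP_8d00da_gt.h42s
namespace Pool.Agent.Lib.MP_8d00da_gt.h42o
end Pool.Agent.Lib.MP_8d00da_gt.h42o


/-!
# Exponential decay of log-concave functions
-/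

namespace Pool.Agent.Lib.MP_8d00da_gt.h97r

open MeasureTheory Set Filter
open Pool.Agent.Lib.MP_8d00da_gt.h25 Pool.Agent.Lib.MP_8d00da_gt.h42
open Pool.Agent.Lib.MP_8d00da_gt.h42s Pool.Agent.Lib.MP_8d00da_gt.h42o
open scoped Topology NNReal

variable {F : Type*} [NormedAddCommGroup F] [InnerProductSpace ℝ F]
    [FiniteDimensional ℝ F] [MeasurableSpace F] [BorelSpace F]

variable {h : F → ℝ}

omit [FiniteDimensional ℝ F] [MeasurableSpace F] [BorelSpace F] in
private lemma superlevel_convex (h0 : ∀ x, 0 ≤ h x) (hlc : LogConc h) {t : ℝ} (ht : 0 < t) :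
    Convex ℝ {x | t ≤ h x} := by
  rw [convex_iff_forall_pos]
  intro x hx y hy a b ha hb hab
  have h1 := hlc b hb (by linarith) x y
  have ha' : 1 - b = a := by linarith
  rw [ha'] at h1
  have h2 : t = t ^ a * t ^ b := by
    rw [← Real.rpow_add ht, hab, Real.rpow_one]
  have hx' : t ≤ h x := hx
  have hy' : t ≤ h y := hy
  have h3 : t ^ a ≤ h x ^ a := Real.rpow_le_rpow ht.le hx' ha.le
  have h4 : t ^ b ≤ h y ^ b := Real.rpow_le_rpow ht.le hy' hb.le
  have h5 : t ^ a * t ^ b ≤ h x ^ a * h y ^ b :=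
    mul_le_mul h3 h4 (Real.rpow_nonneg ht.le _) (Real.rpow_nonneg (h0 x) _)
  change t ≤ h (a • x + b • y)
  linarith

private lemma exists_level (h0 : ∀ x, 0 ≤ h x) (hpos : 0 < ∫ x, h x) :
    ∃ t : ℝ, 0 < t ∧ volume {x | t ≤ h x} ≠ 0 := by
  by_contra hcon
  push Not at hcon
  have h1 : ∀ n : ℕ, ∀ᵐ x : F, ¬ (1 / ((n : ℝ) + 1) ≤ h x) := by
    intro n
    have h2 := hcon (1 / ((n : ℝ) + 1)) (by positivity)
    rw [ae_iff]
    simpa using h2
  have h3 : ∀ᵐ x : F, h x = 0 := by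
    filter_upwards [ae_all_iff.2 h1] with x hx
    by_contra hne
    have hx0 : 0 < h x := lt_of_le_of_ne (h0 x) (Ne.symm hne)
    obtain ⟨n, hn⟩ := exists_nat_one_div_lt hx0
    exact hx n hn.le
  have h4 : ∫ x, h x = 0 := by
    rw [integral_congr_ae (g := fun _ => (0 : ℝ)) h3]
    simp
  linarith

/-- For some `t > 0` the set `{h ≥ t}` (convex, measurable) has positive measure, so it contains
a ball `ball z r` (`convex_ball`). The set `{h ≥ t / e}` has finite measure (Markov), so it is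
contained in `{‖x - z‖ ≤ R}` (`convex_bounded`). For `‖x - z‖ > 2 R` let `a = 2 R / ‖x - z‖` and
`y = (1 - a) z + a x`, `‖y - z‖ = 2 R`: `t ^ (1 - a) h(x) ^ a ≤ h y < t / e`, so
`h x ≤ t exp (- 1 / a) = t exp (- ‖x - z‖ / (2 R))`. -/
theorem decay_far (h0 : ∀ x, 0 ≤ h x) (hm : Measurable h) (hlc : LogConc h)
    (hi : Integrable h) (hpos : 0 < ∫ x, h x) :
    ∃ (z : F) (r t R : ℝ), 0 < r ∧ 0 < t ∧ 0 < R ∧ (∀ x ∈ Metric.ball z r, t ≤ h x) ∧
      ∀ x, R < ‖x - z‖ → h x ≤ t * Real.exp (-(‖x - z‖ / R)) := by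
  obtain ⟨t, ht, hvt⟩ := exists_level h0 hpos
  obtain ⟨z, r, hr, hball⟩ := convex_ball (superlevel_convex h0 hlc ht) hvt
  have hte : 0 < t * Real.exp (-1) := by positivity
  have hle : t * Real.exp (-1) ≤ t := by
    have h1 : Real.exp (-1) ≤ 1 := by
      rw [Real.exp_le_one_iff]
      norm_num
    nlinarith
  have hball2 : Metric.ball z r ⊆ {x | t * Real.exp (-1) ≤ h x} := by
    intro x hx
    exact hle.trans (hball hx)
  have hfin : volume {x | t * Real.exp (-1) ≤ h x} ≠ ⊤ := (hi.measure_ge_lt_top hte).ne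
  obtain ⟨R0, hR0, hb⟩ := convex_bounded (superlevel_convex h0 hlc hte)
    (measurableSet_le measurable_const hm) hfin hr hball2
  refine ⟨z, r, t, 2 * R0, hr, ht, by positivity, fun x hx => hball hx, ?_⟩
  intro x hx
  rcases (h0 x).eq_or_lt with hx0 | hx0
  · rw [← hx0]
    positivity
  have hD : 0 < ‖x - z‖ := lt_trans (by positivity) hx
  set a : ℝ := 2 * R0 / ‖x - z‖ with ha
  have ha0 : 0 < a := by positivity
  have ha1 : a < 1 := by
    rw [ha, div_lt_one hD]
    exact hx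
  have hz : t ≤ h z := hball (Metric.mem_ball_self hr)
  have hzpos : 0 < h z := lt_of_lt_of_le ht hz
  have h1 := hlc a ha0 ha1 z x
  have hyz : ‖((1 - a) • z + a • x) - z‖ = 2 * R0 := by
    have h2 : ((1 - a) • z + a • x) - z = a • (x - z) := by
      rw [sub_smul, one_smul, smul_sub]
      abel
    rw [h2, norm_smul, Real.norm_eq_abs, abs_of_pos ha0, ha]
    field_simp
  have hy : h ((1 - a) • z + a • x) < t * Real.exp (-1) := by
    by_contra hcon
    push Not at hcon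
    have h3 := hb _ hcon
    rw [hyz] at h3
    linarith
  have h4 : t ^ (1 - a) * h x ^ a < t * Real.exp (-1) := by
    have h5 : t ^ (1 - a) ≤ h z ^ (1 - a) := Real.rpow_le_rpow ht.le hz (by linarith)
    have h6 : t ^ (1 - a) * h x ^ a ≤ h z ^ (1 - a) * h x ^ a :=
      mul_le_mul_of_nonneg_right h5 (Real.rpow_nonneg (h0 x) _)
    linarith
  have h7 : Real.log (t ^ (1 - a) * h x ^ a) < Real.log (t * Real.exp (-1)) :=
    Real.log_lt_log (mul_pos (Real.rpow_pos_of_pos ht _) (Real.rpow_pos_of_pos hx0 _)) h4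
  rw [Real.log_mul (Real.rpow_pos_of_pos ht _).ne' (Real.rpow_pos_of_pos hx0 _).ne',
    Real.log_rpow ht, Real.log_rpow hx0, Real.log_mul ht.ne' (Real.exp_pos _).ne',
    Real.log_exp] at h7
  have h8 : Real.log (h x) ≤ Real.log t - 1 / a := by
    have h9 : a * Real.log (h x) ≤ a * (Real.log t - 1 / a) := by
      have h10 : a * (Real.log t - 1 / a) = a * Real.log t - 1 := by
        field_simp
      rw [h10]
      linarith
    exact le_of_mul_le_mul_left h9 ha0
  have h11 : 1 / a = ‖x - z‖ / (2 * R0) := by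
    rw [ha]
    field_simp
  calc h x = Real.exp (Real.log (h x)) := (Real.exp_log hx0).symm
    _ ≤ Real.exp (Real.log t - 1 / a) := Real.exp_le_exp.2 h8
    _ = t * Real.exp (-(‖x - z‖ / (2 * R0))) := by
        rw [h11, sub_eq_add_neg, Real.exp_add, Real.exp_log ht]

/-- `h` is bounded: for any `x`, on the ball with centre `(z + x) / 2` and radius `r / 2` one has
`h ≥ (t h x) ^ (1/2)`, so `(t h x) ^ (1/2) vol (ball 0 (r / 2)) ≤ ∫ h`. Combine with
`decay_far`. -/
theorem decay (h0 : ∀ x, 0 ≤ h x) (hm : Measurable h) (hlc : LogConc h)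
    (hi : Integrable h) (hpos : 0 < ∫ x, h x) :
    ∃ C a : ℝ, 0 < C ∧ 0 < a ∧ ∀ x, h x ≤ C * Real.exp (-(a * ‖x‖)) := by
  obtain ⟨z, r, t, R, hr, ht, hR, hin, hfar⟩ := decay_far h0 hm hlc hi hpos
  set v : ℝ := (volume (Metric.ball (0 : F) (r / 2))).toReal with hv
  have hv0 : 0 < v := by
    rw [hv]
    exact ENNReal.toReal_pos (Metric.measure_ball_pos _ _ (by positivity)).ne'
      measure_ball_lt_top.ne
  set I : ℝ := ∫ x, h x with hI
  -- boundedness
  have hbd : ∀ x, h x ≤ (I / v) ^ 2 / t := by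
    intro x
    set c : F := (1 / 2 : ℝ) • z + (1 / 2 : ℝ) • x with hc
    have h1 : ∀ w ∈ Metric.ball c (r / 2), (t * h x) ^ (1 / 2 : ℝ) ≤ h w := by
      intro w hw
      have h2 : (2 : ℝ) • w - x ∈ Metric.ball z r := by
        rw [mem_ball_iff_norm] at hw ⊢
        have h3 : (2 : ℝ) • w - x - z = (2 : ℝ) • (w - c) := by
          rw [hc, smul_sub, smul_add, smul_smul, smul_smul]
          norm_num
          abel
        rw [h3, norm_smul]
        norm_num
        linarith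
      have h4 := hlc (1 / 2) (by norm_num) (by norm_num) ((2 : ℝ) • w - x) x
      have h5 : (1 - 1 / 2 : ℝ) • ((2 : ℝ) • w - x) + (1 / 2 : ℝ) • x = w := by
        rw [smul_sub, smul_smul]
        norm_num
      rw [h5] at h4
      have h6 := hin _ h2
      have h7 : t ^ (1 - 1 / 2 : ℝ) ≤ h ((2 : ℝ) • w - x) ^ (1 - 1 / 2 : ℝ) :=
        Real.rpow_le_rpow ht.le h6 (by norm_num)
      rw [Real.mul_rpow ht.le (h0 x)]
      have h8 : (1 - 1 / 2 : ℝ) = 1 / 2 := by norm_num
      rw [h8] at h7 h4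
      exact (mul_le_mul_of_nonneg_right h7 (Real.rpow_nonneg (h0 x) _)).trans h4
    have h9 : (t * h x) ^ (1 / 2 : ℝ) * v ≤ I := by
      have hvc : (volume (Metric.ball c (r / 2))).toReal = v := by
        rw [hv, Measure.addHaar_ball_center]
      calc (t * h x) ^ (1 / 2 : ℝ) * v
          = ∫ w in Metric.ball c (r / 2), (t * h x) ^ (1 / 2 : ℝ) := by
            rw [setIntegral_const, Measure.real, hvc, smul_eq_mul, mul_comm]
        _ ≤ ∫ w in Metric.ball c (r / 2), h w := by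
            refine setIntegral_mono_on ?_ hi.integrableOn Metric.isOpen_ball.measurableSet h1
            exact integrableOn_const measure_ball_lt_top.ne
        _ ≤ ∫ w, h w := setIntegral_le_integral hi (Eventually.of_forall h0)
    have h10 : (t * h x) ^ (1 / 2 : ℝ) ≤ I / v := by
      rw [le_div_iff₀ hv0]
      exact h9
    have h11 : t * h x ≤ (I / v) ^ 2 := by
      have h12 : 0 ≤ t * h x := mul_nonneg ht.le (h0 x)
      have h13 : ((t * h x) ^ (1 / 2 : ℝ)) ^ 2 = t * h x := by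
        rw [← Real.sqrt_eq_rpow, Real.sq_sqrt h12]
      rw [← h13]
      have h14 : 0 ≤ (t * h x) ^ (1 / 2 : ℝ) := Real.rpow_nonneg h12 _
      gcongr
    rw [le_div_iff₀ ht]
    linarith
  set B : ℝ := (I / v) ^ 2 / t with hB
  have hB0 : 0 ≤ B := by positivity
  refine ⟨(t + B) * Real.exp (1 + ‖z‖ / R), 1 / R, by positivity, by positivity, ?_⟩
  intro x
  have hxz : ‖x‖ ≤ ‖x - z‖ + ‖z‖ := by
    calc ‖x‖ = ‖(x - z) + z‖ := by rw [sub_add_cancel]
      _ ≤ ‖x - z‖ + ‖z‖ := norm_add_le _ _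
  rw [mul_assoc, ← Real.exp_add]
  rcases lt_or_ge R ‖x - z‖ with hx | hx
  · refine (hfar x hx).trans ?_
    have h1 : -(‖x - z‖ / R) ≤ 1 + ‖z‖ / R + -(1 / R * ‖x‖) := by
      have h2 : ‖x‖ / R ≤ (‖x - z‖ + ‖z‖) / R := by gcongr
      rw [add_div] at h2
      have h3 : 1 / R * ‖x‖ = ‖x‖ / R := by ring
      rw [h3]
      linarith
    have h4 : t ≤ t + B := by linarith
    exact mul_le_mul h4 (Real.exp_le_exp.2 h1) (Real.exp_pos _).le (by positivity)
  · have h1 : (0 : ℝ) ≤ 1 + ‖z‖ / R + -(1 / R * ‖x‖) := by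
      have h2 : ‖x‖ / R ≤ (R + ‖z‖) / R := by
        gcongr
        linarith
      rw [add_div, div_self hR.ne'] at h2
      have h3 : 1 / R * ‖x‖ = ‖x‖ / R := by ring
      rw [h3]
      linarith
    have h4 : (1 : ℝ) ≤ Real.exp (1 + ‖z‖ / R + -(1 / R * ‖x‖)) := Real.one_le_exp h1
    have h5 := hbd x
    nlinarith

end Pool.Agent.Lib.MP_8d00da_gt.h97r
end

section

namespace Pool.Agent.Lib.MP_8d00da_gt.h42o
end Pool.Agent.Lib.MP_8d00da_gt.h42o


/-!
# U37: convergence of the Gaussian regularisations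

Full proof. `σ k = 1/(k+1)`, `c σ = ∫ ker σ`. `cv σ h x/c σ = ∫ h (x - √σ z) ker 1 z dz / c 1` (scaling
`z ↦ √σ z`: `Measure.integral_comp_smul`, `ker σ (√σ z) = ker 1 z`).
`cv_major`: `h (x - √σ z) ≤ C exp (-a‖x - √σ z‖) ≤ C exp (-a‖x‖) exp (a‖z‖)` (`√σ ≤ 1`), so
`C' = C (∫ exp (a‖z‖) ker 1 z)/c 1`, finite (`a‖z‖ ≤ a² + ‖z‖²/4`, `ker_integrable`).
`cv_lim`: at every continuity point `x` of `h`: dominated convergence with the majorant
`C exp (a‖z‖) ker 1 z`. Almost every point is a continuity point: the set `P = {h > 0}` is convex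
(`hlc`), its frontier is a null set (`Convex.addHaar_frontier`); outside the closure `h = 0` near `x`;
in the interior of `P`, `log h` is concave on `interior P`, hence continuous there
(`ConcaveOn.continuousOn` on open convex sets in finite dimension, or the proof in
h42o/OGen, around line 384), and `h = exp (log h)`.
-/

namespace Pool.Agent.Lib.MP_8d00da_gt.h42u

open MeasureTheory Set Filter
open Pool.Agent.Lib.MP_8d00da_gt.h25 Pool.Agent.Lib.MP_8d00da_gt.h42
open Pool.Agent.Lib.MP_8d00da_gt.h42s Pool.Agent.Lib.MP_8d00da_gt.h42o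
open scoped Topology NNReal

variable {n : ℕ}

private lemma ul_scale {h : Vn n → ℝ} {σ : ℝ} (hσ : 0 < σ) (x : Vn n) :
    cv σ h x / (∫ z : Vn n, h25.ker σ z) =
      (∫ z : Vn n, h (x - Real.sqrt σ • z) * h25.ker 1 z) / ∫ z : Vn n, h25.ker 1 z := by
  have hr : 0 < Real.sqrt σ := Real.sqrt_pos.2 hσ
  have hk : ∀ z : Vn n, h25.ker σ (Real.sqrt σ • z) = h25.ker 1 z := by
    intro z
    unfold h25.ker
    rw [norm_smul, mul_pow, Real.norm_eq_abs, sq_abs, Real.sq_sqrt hσ.le]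
    congr 2
    field_simp
  have h1 : cv σ h x = ∫ y, h (x - y) * h25.ker σ y := by
    unfold cv
    rw [← integral_sub_left_eq_self _ volume x]
    refine integral_congr_ae (Eventually.of_forall fun y => ?_)
    simp only [sub_sub_cancel]
  set J : ℝ := |(Real.sqrt σ ^ Module.finrank ℝ (Vn n))⁻¹| with hJ
  have hJ0 : 0 < J := by rw [hJ]; positivity
  have h2 : ∫ z : Vn n, h (x - Real.sqrt σ • z) * h25.ker 1 z = J * cv σ h x := by
    rw [h1, ← smul_eq_mul J, hJ, ← Measure.integral_comp_smul volume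
      (fun y => h (x - y) * h25.ker σ y) (Real.sqrt σ)]
    refine integral_congr_ae (Eventually.of_forall fun y => ?_)
    simp only
    rw [hk]
  have h3 : ∫ z : Vn n, h25.ker 1 z = J * ∫ z : Vn n, h25.ker σ z := by
    rw [← smul_eq_mul J, hJ, ← Measure.integral_comp_smul volume
      (fun y : Vn n => h25.ker σ y) (Real.sqrt σ)]
    refine integral_congr_ae (Eventually.of_forall fun y => ?_)
    simp only
    rw [hk]
  rw [h2, h3, mul_div_mul_left _ _ hJ0.ne']

private lemma ul_exp_int {a : ℝ} :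
    Integrable fun z : Vn n => Real.exp (a * ‖z‖) * h25.ker 1 z := by
  have h1 : Integrable fun z : Vn n => Real.exp (a ^ 2) * h25.ker 2 z :=
    (ker_integrable (by norm_num)).const_mul _
  refine h1.mono' (by
    refine Continuous.aestronglyMeasurable ?_
    have : Continuous fun z : Vn n => h25.ker 1 z := ker_cont
    fun_prop) (Eventually.of_forall fun z => ?_)
  rw [Real.norm_eq_abs, abs_of_pos (mul_pos (Real.exp_pos _) (ker_pos _))]
  unfold h25.ker
  rw [← Real.exp_add, ← Real.exp_add]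
  refine Real.exp_le_exp.2 ?_
  nlinarith [sq_nonneg (‖z‖ / 2 - a)]

private lemma ul_cont_int {h : Vn n → ℝ} (h0 : ∀ x, 0 ≤ h x) (hm : Measurable h) {C : ℝ}
    (hd : ∀ x, h x ≤ C) (x : Vn n) (r : ℝ) :
    Integrable fun z : Vn n => h (x - r • z) * h25.ker 1 z := by
  have h1 : Integrable fun z : Vn n => C * h25.ker 1 z :=
    (ker_integrable (by norm_num)).const_mul _
  refine h1.mono' ?_ (Eventually.of_forall fun z => ?_)
  · refine Measurable.aestronglyMeasurable ?_
    have h2 : Measurable fun z : Vn n => h25.ker 1 z := ker_cont.measurable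
    have h3 : Measurable fun z : Vn n => h (x - r • z) := hm.comp (by fun_prop)
    exact h3.mul h2
  · rw [Real.norm_eq_abs, abs_of_nonneg (mul_nonneg (h0 _) (ker_pos _).le)]
    exact mul_le_mul_of_nonneg_right (hd _) (ker_pos _).le

theorem cv_major {h : Vn n → ℝ} (h0 : ∀ x, 0 ≤ h x) (hm : Measurable h) {C a : ℝ} (hC : 0 < C)
    (ha : 0 < a) (hd : ∀ x, h x ≤ C * Real.exp (-(a * ‖x‖))) :
    ∃ C' : ℝ, 0 < C' ∧ ∀ (k : ℕ) (x : Vn n),
      cv (1 / ((k : ℝ) + 1)) h x / (∫ z : Vn n, h25.ker (1 / ((k : ℝ) + 1)) z) ≤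
        C' * Real.exp (-(a * ‖x‖)) := by
  have hc1 : 0 < ∫ z : Vn n, h25.ker 1 z := ker_int_pos one_pos
  have hI : 0 < ∫ z : Vn n, Real.exp (a * ‖z‖) * h25.ker 1 z :=
    ker_int_pos.integral_pos_of_pos ul_exp_int fun z => mul_pos (Real.exp_pos _) (ker_pos _)
  have hbd : ∀ x, h x ≤ C := by
    intro x
    refine (hd x).trans ?_
    have h1 : Real.exp (-(a * ‖x‖)) ≤ 1 := by
      rw [Real.exp_le_one_iff, neg_nonpos]
      positivity
    nlinarith
  refine ⟨C * (∫ z : Vn n, Real.exp (a * ‖z‖) * h25.ker 1 z) / ∫ z : Vn n, h25.ker 1 z,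
    by positivity, fun k x => ?_⟩
  have hσ : (0 : ℝ) < 1 / ((k : ℝ) + 1) := by positivity
  rw [ul_scale hσ, div_mul_eq_mul_div]
  refine div_le_div_of_nonneg_right ?_ hc1.le
  set r : ℝ := Real.sqrt (1 / ((k : ℝ) + 1)) with hr
  have hr0 : 0 ≤ r := Real.sqrt_nonneg _
  have hr1 : r ≤ 1 := by
    rw [hr, Real.sqrt_le_left one_pos.le, one_pow, div_le_one (by positivity)]
    have : (0 : ℝ) ≤ (k : ℝ) := by positivity
    linarith
  have h1 : ∀ z : Vn n, h (x - r • z) * h25.ker 1 z ≤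
      (C * Real.exp (-(a * ‖x‖))) * (Real.exp (a * ‖z‖) * h25.ker 1 z) := by
    intro z
    rw [← mul_assoc]
    refine mul_le_mul_of_nonneg_right ?_ (ker_pos _).le
    refine (hd _).trans ?_
    rw [mul_assoc, ← Real.exp_add]
    refine mul_le_mul_of_nonneg_left (Real.exp_le_exp.2 ?_) hC.le
    have h2 : ‖x‖ ≤ ‖x - r • z‖ + ‖z‖ := by
      have h3 : ‖x‖ ≤ ‖x - r • z‖ + ‖r • z‖ := by
        have := norm_add_le (x - r • z) (r • z)
        rwa [sub_add_cancel] at this
      have h4 : ‖r • z‖ ≤ ‖z‖ := by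
        rw [norm_smul, Real.norm_eq_abs, abs_of_nonneg hr0]
        have := norm_nonneg z
        nlinarith
      linarith
    have h5 := mul_le_mul_of_nonneg_left h2 ha.le
    linarith
  have h2 := integral_mono (ul_cont_int h0 hm hbd x r) (ul_exp_int.const_mul _) h1
  rw [integral_const_mul] at h2
  calc _ ≤ _ := h2
    _ = _ := by ring

private lemma ul_convex {h : Vn n → ℝ} (hlc : LogConc h) :
    Convex ℝ {x | 0 < h x} := by
  rw [convex_iff_forall_pos]
  intro x hx y hy a b ha hb hab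
  have hx' : 0 < h x := hx
  have hy' : 0 < h y := hy
  have h1 := hlc b hb (by linarith) x y
  have h2 : 1 - b = a := by linarith
  rw [h2] at h1
  have h3 : 0 < h x ^ a * h y ^ b :=
    mul_pos (Real.rpow_pos_of_pos hx' _) (Real.rpow_pos_of_pos hy' _)
  exact h3.trans_le h1

private lemma ul_contAt {h : Vn n → ℝ} (h0 : ∀ x, 0 ≤ h x) (hlc : LogConc h) :
    ∀ᵐ x : Vn n, ContinuousAt h x := by
  have hc := ul_convex hlc
  have hsub : ∀ y, y ∈ interior {x | 0 < h x} → 0 < h y := fun y hy => by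
    have h1 : y ∈ {x | 0 < h x} := interior_subset hy
    exact h1
  have hfr : volume (frontier {x | 0 < h x}) = 0 := hc.addHaar_frontier volume
  have h1 : ∀ᵐ x : Vn n, x ∉ frontier {x | 0 < h x} := measure_eq_zero_iff_ae_notMem.1 hfr
  filter_upwards [h1] with x hx
  by_cases hcl : x ∈ closure {x | 0 < h x}
  · have hin : x ∈ interior {x | 0 < h x} := by
      by_contra hcon
      exact hx ⟨hcl, hcon⟩
    have hconc : ConcaveOn ℝ (interior {x | 0 < h x}) fun x => Real.log (h x) := by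
      refine ⟨hc.interior, ?_⟩
      intro y hy z hz a b ha hb hab
      have hy' : 0 < h y := hsub y hy
      have hz' : 0 < h z := hsub z hz
      rcases ha.eq_or_lt with rfl | ha
      · have : b = 1 := by linarith
        subst this
        simp
      rcases hb.eq_or_lt with rfl | hb
      · have : a = 1 := by linarith
        subst this
        simp
      have h2 := hlc b hb (by linarith) y z
      have h3 : 1 - b = a := by linarith
      rw [h3] at h2
      have h4 : 0 < h y ^ a * h z ^ b :=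
        mul_pos (Real.rpow_pos_of_pos hy' _) (Real.rpow_pos_of_pos hz' _)
      have h5 := Real.log_le_log h4 h2
      rw [Real.log_mul (Real.rpow_pos_of_pos hy' _).ne' (Real.rpow_pos_of_pos hz' _).ne',
        Real.log_rpow hy', Real.log_rpow hz'] at h5
      simpa using h5
    have hcont := hconc.continuousOn isOpen_interior
    have hca : ContinuousAt (fun x => Real.log (h x)) x :=
      hcont.continuousAt (isOpen_interior.mem_nhds hin)
    have hexp : ContinuousAt (fun x => Real.exp (Real.log (h x))) x := hca.rexp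
    refine hexp.congr ?_
    filter_upwards [isOpen_interior.mem_nhds hin] with y hy
    exact Real.exp_log (hsub y hy)
  · have h2 : (fun _ => (0 : ℝ)) =ᶠ[𝓝 x] h := by
      filter_upwards [isClosed_closure.isOpen_compl.mem_nhds hcl] with y hy
      have h3 : y ∉ {x | 0 < h x} := fun hc' => hy (subset_closure hc')
      have h4 : ¬ 0 < h y := h3
      exact le_antisymm (h0 y) (not_lt.1 h4)
    exact continuousAt_const.congr h2

theorem cv_lim {h : Vn n → ℝ} (h0 : ∀ x, 0 ≤ h x) (hm : Measurable h) (hlc : LogConc h)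
    {C a : ℝ} (hC : 0 < C) (ha : 0 < a) (hd : ∀ x, h x ≤ C * Real.exp (-(a * ‖x‖))) :
    ∀ᵐ x : Vn n, Tendsto (fun k : ℕ => cv (1 / ((k : ℝ) + 1)) h x /
      ∫ z : Vn n, h25.ker (1 / ((k : ℝ) + 1)) z) atTop (𝓝 (h x)) := by
  have hc1 : 0 < ∫ z : Vn n, h25.ker 1 z := ker_int_pos one_pos
  have hbd : ∀ x, h x ≤ C := by
    intro x
    refine (hd x).trans ?_
    have h1 : Real.exp (-(a * ‖x‖)) ≤ 1 := by
      rw [Real.exp_le_one_iff, neg_nonpos]
      positivity
    nlinarith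
  filter_upwards [ul_contAt h0 hlc] with x hx
  have hσ : ∀ k : ℕ, (0 : ℝ) < 1 / ((k : ℝ) + 1) := fun k => by positivity
  have h1 : ∀ k : ℕ, cv (1 / ((k : ℝ) + 1)) h x / (∫ z : Vn n, h25.ker (1 / ((k : ℝ) + 1)) z) =
      (∫ z : Vn n, h (x - Real.sqrt (1 / ((k : ℝ) + 1)) • z) * h25.ker 1 z) /
        ∫ z : Vn n, h25.ker 1 z := fun k => ul_scale (hσ k) x
  simp only [h1]
  have h2 : h x = (∫ z : Vn n, h x * h25.ker 1 z) / ∫ z : Vn n, h25.ker 1 z := by
    rw [integral_const_mul, mul_div_cancel_right₀ _ hc1.ne']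
  rw [h2]
  refine Tendsto.div_const ?_ _
  have hs : Tendsto (fun k : ℕ => Real.sqrt (1 / ((k : ℝ) + 1))) atTop (𝓝 0) := by
    have h3 : Tendsto (fun k : ℕ => 1 / ((k : ℝ) + 1)) atTop (𝓝 0) :=
      tendsto_one_div_add_atTop_nhds_zero_nat
    have h4 := h3.sqrt
    rwa [Real.sqrt_zero] at h4
  refine tendsto_integral_of_dominated_convergence (fun z => C * h25.ker 1 z) (fun k => ?_)
    ((ker_integrable one_pos).const_mul _) (fun k => Eventually.of_forall fun z => ?_)
    (Eventually.of_forall fun z => ?_)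
  · exact (ul_cont_int h0 hm hbd x _).aestronglyMeasurable
  · rw [Real.norm_eq_abs, abs_of_nonneg (mul_nonneg (h0 _) (ker_pos _).le)]
    exact mul_le_mul_of_nonneg_right (hbd _) (ker_pos _).le
  · refine Tendsto.mul_const _ ?_
    have h5 : Tendsto (fun k : ℕ => x - Real.sqrt (1 / ((k : ℝ) + 1)) • z) atTop (𝓝 x) := by
      have h6 := (hs.smul_const z).const_sub x
      rwa [zero_smul, sub_zero] at h6
    exact hx.tendsto.comp h5

end Pool.Agent.Lib.MP_8d00da_gt.h42u
end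

section

namespace Pool.Agent.Lib.MP_8d00da_gt.h25
end Pool.Agent.Lib.MP_8d00da_gt.h25
namespace Pool.Agent.Lib.MP_8d00da_gt.h42
end Pool.Agent.Lib.MP_8d00da_gt.h42
namespace Pool.Agent.Lib.MP_8d00da_gt.h42s
end Pool.Agent.Lib.MP_8d00da_gt.h42s
namespace Pool.Agent.Lib.MP_8d00da_gt.h42o
end Pool.Agent.Lib.MP_8d00da_gt.h42o


/-!
# Integrability
-/

namespace Pool.Agent.Lib.MP_8d00da_gt.h97r

open MeasureTheory Set Filter
open Pool.Agent.Lib.MP_8d00da_gt.h25 Pool.Agent.Lib.MP_8d00da_gt.h42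
open Pool.Agent.Lib.MP_8d00da_gt.h42s Pool.Agent.Lib.MP_8d00da_gt.h42o
open scoped Topology NNReal

variable {F : Type*} [NormedAddCommGroup F] [InnerProductSpace ℝ F]
    [FiniteDimensional ℝ F] [MeasurableSpace F] [BorelSpace F]



/-- Polynomials times `exp (- a ‖x‖)` are integrable (compare `h42o.exp_l1_int`,
`h42u/ULim.lean`; e.g. `exp (-a ‖x‖) (1 + ‖x‖²) ≤ C (1 + ‖x‖)^(-(n + 1))`,
`integrable_one_add_norm`). -/
theorem exp_norm_int {a : ℝ} (ha : 0 < a) :
    Integrable fun x : F => (1 + ‖x‖ ^ 2) * Real.exp (-(a * ‖x‖)) := by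
  set n : ℕ := Module.finrank ℝ F with hn
  set C : ℝ := ((n + 3).factorial : ℝ) * Real.exp a / a ^ (n + 3) with hC
  have hr : (Module.finrank ℝ F : ℝ) < (n : ℝ) + 1 := by
    rw [← hn]
    linarith
  have hint : Integrable fun x : F => C * (1 + ‖x‖) ^ (-((n : ℝ) + 1)) :=
    (integrable_one_add_norm hr).const_mul C
  refine hint.mono' ?_ (Eventually.of_forall fun x => ?_)
  · have hcont : Continuous fun x : F => (1 + ‖x‖ ^ 2) * Real.exp (-(a * ‖x‖)) := by
      fun_prop
    exact hcont.aestronglyMeasurable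
  · have hx : 0 ≤ ‖x‖ := norm_nonneg x
    have h1 : 0 < 1 + ‖x‖ := by linarith
    have h0 : 0 ≤ (1 + ‖x‖ ^ 2) * Real.exp (-(a * ‖x‖)) := by positivity
    rw [Real.norm_eq_abs, abs_of_nonneg h0]
    have h2 := Real.pow_div_factorial_le_exp (a * (1 + ‖x‖)) (by positivity) (n + 3)
    have hfac : (0 : ℝ) < ((n + 3).factorial : ℝ) := by
      exact_mod_cast Nat.factorial_pos _
    have h3 : (1 + ‖x‖) ^ (n + 3) * Real.exp (-(a * ‖x‖)) ≤ C := by
      rw [div_le_iff₀ hfac, mul_pow, mul_add, mul_one, Real.exp_add] at h2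
      rw [hC, le_div_iff₀ (by positivity)]
      have h4 : Real.exp (a * ‖x‖) * Real.exp (-(a * ‖x‖)) = 1 := by
        rw [← Real.exp_add]
        simp
      calc (1 + ‖x‖) ^ (n + 3) * Real.exp (-(a * ‖x‖)) * a ^ (n + 3)
          = (a ^ (n + 3) * (1 + ‖x‖) ^ (n + 3)) * Real.exp (-(a * ‖x‖)) := by ring
        _ ≤ (Real.exp a * Real.exp (a * ‖x‖) * ((n + 3).factorial : ℝ)) *
            Real.exp (-(a * ‖x‖)) := by
            exact mul_le_mul_of_nonneg_right h2 (Real.exp_pos _).le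
        _ = ((n + 3).factorial : ℝ) * Real.exp a *
            (Real.exp (a * ‖x‖) * Real.exp (-(a * ‖x‖))) := by ring
        _ = ((n + 3).factorial : ℝ) * Real.exp a := by rw [h4, mul_one]
    have h5 : (1 + ‖x‖) ^ (-((n : ℝ) + 1)) = ((1 + ‖x‖) ^ (n + 1))⁻¹ := by
      rw [Real.rpow_neg h1.le]
      congr 1
      exact_mod_cast Real.rpow_natCast (1 + ‖x‖) (n + 1)
    rw [h5]
    have h6 : 1 + ‖x‖ ^ 2 ≤ (1 + ‖x‖) ^ 2 := by nlinarith
    have h7 : (1 + ‖x‖) ^ 2 = (1 + ‖x‖) ^ (n + 3) * ((1 + ‖x‖) ^ (n + 1))⁻¹ := by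
      rw [show n + 3 = 2 + (n + 1) by ring, pow_add, mul_assoc, mul_inv_cancel₀ (by positivity),
        mul_one]
    calc (1 + ‖x‖ ^ 2) * Real.exp (-(a * ‖x‖))
        ≤ (1 + ‖x‖) ^ 2 * Real.exp (-(a * ‖x‖)) :=
          mul_le_mul_of_nonneg_right h6 (Real.exp_pos _).le
      _ = ((1 + ‖x‖) ^ (n + 3) * Real.exp (-(a * ‖x‖))) * ((1 + ‖x‖) ^ (n + 1))⁻¹ := by
          rw [h7]
          ring
      _ ≤ C * ((1 + ‖x‖) ^ (n + 1))⁻¹ :=
          mul_le_mul_of_nonneg_right h3 (by positivity)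

end Pool.Agent.Lib.MP_8d00da_gt.h97r
end
end

section

/-! # SYM LEMMA (helper94) -/

open scoped BigOperators InnerProductSpace
open Finset

namespace Pool.Agent.Lib.MP_8d00da_gt.h62a

variable {M : ℕ} {E : Type*} [NormedAddCommGroup E] [InnerProductSpace ℝ E]

namespace SA

theorem tau_comm (M i j : ℕ) : tau M i j = tau M j i := by
  unfold tau
  by_cases h : i < M ∧ j < M
  · rw [dif_pos h, dif_pos h.symm, Equiv.swap_comm]
  · rw [dif_neg h, dif_neg (fun h' => h h'.symm)]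

theorem tau_mul_self (M i j : ℕ) : tau M i j * tau M i j = 1 := by
  unfold tau
  by_cases h : i < M ∧ j < M
  · rw [dif_pos h, Equiv.swap_mul_self]
  · rw [dif_neg h, one_mul]

theorem tau_slide {M i j k : ℕ} (hi : i < M) (hj : j < M) (hk : k < M) (_hij : i ≠ j) (hjk : j ≠ k)
    (hik : i ≠ k) : tau M i j * tau M j k = tau M i k * tau M i j := by
  unfold tau
  rw [dif_pos ⟨hi, hj⟩, dif_pos ⟨hj, hk⟩, dif_pos ⟨hi, hk⟩, Equiv.mul_swap_eq_swap_mul,
    Equiv.swap_apply_right, Equiv.swap_apply_of_ne_of_ne]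
  · simpa [Fin.ext_iff] using hik.symm
  · simpa [Fin.ext_iff] using hjk.symm

theorem tau_disj {M i j k l : ℕ} (hi : i < M) (hj : j < M) (hk : k < M) (hl : l < M)
    (hik : i ≠ k) (hil : i ≠ l) (hjk : j ≠ k) (hjl : j ≠ l) :
    tau M i j * tau M k l = tau M k l * tau M i j := by
  unfold tau
  rw [dif_pos ⟨hi, hj⟩, dif_pos ⟨hk, hl⟩, Equiv.mul_swap_eq_swap_mul,
    Equiv.swap_apply_of_ne_of_ne, Equiv.swap_apply_of_ne_of_ne]
  · simpa [Fin.ext_iff] using hil.symm
  · simpa [Fin.ext_iff] using hjl.symm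
  · simpa [Fin.ext_iff] using hik.symm
  · simpa [Fin.ext_iff] using hjk.symm

/-- the transposition operators as linear maps -/
noncomputable def tL (ρ : Equiv.Perm (Fin M) →* (E ≃ₗᵢ[ℝ] E)) (i j : ℕ) : E →ₗ[ℝ] E :=
  (ρ (tau M i j)).toLinearEquiv.toLinearMap

theorem tL_apply (ρ : Equiv.Perm (Fin M) →* (E ≃ₗᵢ[ℝ] E)) (i j : ℕ) (x : E) :
    tL ρ i j x = ρ (tau M i j) x := rfl

theorem rho_mul (ρ : Equiv.Perm (Fin M) →* (E ≃ₗᵢ[ℝ] E)) (σ σ' : Equiv.Perm (Fin M)) (x : E) :
    ρ σ (ρ σ' x) = ρ (σ * σ') x := by rw [map_mul]; rfl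

theorem rho_tau_tau (ρ : Equiv.Perm (Fin M) →* (E ≃ₗᵢ[ℝ] E)) (i j : ℕ) (x : E) :
    ρ (tau M i j) (ρ (tau M i j) x) = x := by
  rw [rho_mul, tau_mul_self, map_one]; rfl

theorem trans_rho (ρ : Equiv.Perm (Fin M) →* (E ≃ₗᵢ[ℝ] E)) :
    KLS94.Trans M (innerₗ E) (tL ρ) where
  symm x y := by simp only [innerₗ_apply_apply]; exact real_inner_comm y x
  nonneg x := by simp only [innerₗ_apply_apply]; exact real_inner_self_nonneg
  comm i j x _ _ _ := by rw [tL_apply, tL_apply, tau_comm]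
  inv i j x _ _ _ := by rw [tL_apply, tL_apply, rho_tau_tau]
  adj i j x y _ _ _ := by
    simp only [innerₗ_apply_apply, tL_apply]
    conv_lhs => rw [← rho_tau_tau ρ i j y]
    rw [LinearIsometryEquiv.inner_map_map]
  slide i j k x hi hj hk hij hjk hik := by
    simp only [tL_apply]
    rw [rho_mul, rho_mul, tau_slide hi hj hk hij hjk hik]
  disj i j k l x hi hj hk hl _ hik hil hjk hjl _ := by
    simp only [tL_apply]
    rw [rho_mul, rho_mul, tau_disj hi hj hk hl hik hil hjk hjl]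

theorem US_eq_U (ρ : Equiv.Perm (Fin M) →* (E ≃ₗᵢ[ℝ] E)) (X : E) (j : ℕ) :
    KLS94.US (tL ρ) X j = U ρ X j := by
  induction j with
  | zero => rfl
  | succ j ih =>
    rw [KLS94.US, U, ih]
    rfl

end SA

open SA in
/-- SYM LEMMA: `|X|² ≤ 2 b² |P_b X|² + 42 S²`,
`S = ∑_{1≤j<b} j(j+1) e_j + ∑_{1≤j<b-1} j(j+1) e'_j`. -/
theorem sym_lemma (ρ : Equiv.Perm (Fin M) →* (E ≃ₗᵢ[ℝ] E)) (X : E) (b : ℕ) (hb : 1 ≤ b)
    (hM : b + 1 ≤ M) :
    ‖X‖ ^ 2 ≤ 2 * (b : ℝ) ^ 2 * ‖U ρ X b‖ ^ 2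
      + 42 * (∑ j ∈ Ico 1 b, (j : ℝ) * ((j : ℝ) + 1) * e0 ρ X j
          + ∑ j ∈ Ico 1 (b - 1), (j : ℝ) * ((j : ℝ) + 1) * e1 ρ X j) ^ 2 := by
  have hT := (trans_rho ρ).mono hM
  have key : ∀ (i k : ℕ) (Y : E), KLS94.NL (innerₗ E) (KLS94.Am (tL ρ) i k Y)
      (‖Y - ρ (tau M i k) Y‖ / 2) := by
    intro i k Y
    refine ⟨by positivity, le_of_eq ?_⟩
    simp only [innerₗ_apply_apply, real_inner_self_eq_norm_sq, KLS94.Am, norm_smul, tL_apply]
    norm_num
    ring
  have h1 := KLS94.sym_main hb hT X (fun j => e0 ρ X j) (fun j => e1 ρ X j)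
    (fun j _ _ => by rw [US_eq_U]; exact key _ _ _) (fun j _ _ => by rw [US_eq_U]; exact key _ _ _)
  rw [US_eq_U] at h1
  simpa only [innerₗ_apply_apply, real_inner_self_eq_norm_sq] using h1

end Pool.Agent.Lib.MP_8d00da_gt.h62a
end
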