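import Mathlib

/-!
# Full KLS: the excursion lemma (sequences)

`exc_core`: one chain.  `EX`: the family of all chains of a system.
-/

namespace Pool.Agent.Lib.MP_8d00da_gt.h62a

open Finset

/-- Tails of the weights (up to the horizon `L`). -/
noncomputable def cT (w : ℕ → ℝ) (L m : ℕ) : ℝ := ∑ i ∈ Ico m L, w i

section

variable {w y δ a : ℕ → ℝ} {L : ℕ}

theorem cT_nonneg (hw : ∀ i, 0 ≤ w i) (m : ℕ) : 0 ≤ cT w L m := sum_nonneg fun i _ => hw i

theorem cT_succ {m : ℕ} (hm : m < L) : cT w L m = w m + cT w L (m + 1) := by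
  unfold cT
  rw [sum_eq_sum_Ico_succ_bot hm]

theorem phi_step {k : ℕ} (hk : 1 ≤ k) (hL : k < L) :
    ∑ p ∈ Ico 1 (k + 1), cT w L (k + 1 - p) * y p =
      ∑ p ∈ Ico 1 k, cT w L (k - p) * y p - ∑ p ∈ Ico 1 k, w (k - p) * y p + cT w L 1 * y k := by
  rw [sum_Ico_succ_top hk, ← sum_sub_distrib]
  congr 1
  · refine sum_congr rfl fun p hp => ?_
    rw [mem_Ico] at hp
    have h1 : k + 1 - p = (k - p) + 1 := by omega
    rw [h1, cT_succ (w := w) (L := L) (m := k - p) (by omega)]
    ring
  · have h1 : k + 1 - k = 1 := by omega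
    rw [h1]

/-- `∑_{m ≥ 1} c_m ≤ ∑ i w_i`. -/
theorem cT_sum (hw : ∀ i, 0 ≤ w i) (M : ℕ) :
    ∑ m ∈ Ico 1 M, cT w L m ≤ ∑ i ∈ range L, (i : ℝ) * w i := by
  have h1 : ∑ m ∈ Ico 1 M, cT w L m = ∑ i ∈ range L, ∑ m ∈ Ico 1 M, if m ≤ i then w i else 0 := by
    rw [sum_comm]
    refine sum_congr rfl fun m _ => ?_
    unfold cT
    rw [← sum_filter]
    refine sum_congr ?_ fun _ _ => rfl
    ext i
    simp only [mem_Ico, mem_filter, mem_range]
    tauto
  rw [h1]
  refine sum_le_sum fun i _ => ?_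
  rw [← sum_filter, sum_const, nsmul_eq_mul]
  refine mul_le_mul_of_nonneg_right ?_ (hw i)
  have h2 : (Ico 1 M).filter (fun m => m ≤ i) ⊆ Ico 1 (i + 1) := by
    intro m hm
    simp only [mem_filter, mem_Ico] at hm ⊢
    omega
  have h3 := card_le_card h2
  rw [Nat.card_Ico] at h3
  exact_mod_cast h3

/-- `∑_{k ≤ J} ∑_{p < k} c_{k-p} y_p ≤ (∑ i w_i) ∑_{p < J} y_p`. -/
theorem cT_double (hw : ∀ i, 0 ≤ w i) (hy : ∀ i, 0 ≤ y i) (J : ℕ) :
    ∑ k ∈ Ico 1 (J + 1), ∑ p ∈ Ico 1 k, cT w L (k - p) * y p ≤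
      (∑ i ∈ range L, (i : ℝ) * w i) * ∑ p ∈ Ico 1 J, y p := by
  have h1 : ∑ k ∈ Ico 1 (J + 1), ∑ p ∈ Ico 1 k, cT w L (k - p) * y p =
      ∑ p ∈ Ico 1 J, ∑ k ∈ Ico (p + 1) (J + 1), cT w L (k - p) * y p := by
    refine sum_comm' fun k p => ?_
    simp only [mem_Ico]
    omega
  rw [h1, mul_sum]
  refine sum_le_sum fun p hp => ?_
  rw [mem_Ico] at hp
  rw [← sum_mul]
  refine mul_le_mul_of_nonneg_right ?_ (hy p)
  have h2 : ∑ k ∈ Ico (p + 1) (J + 1), cT w L (k - p) = ∑ m ∈ Ico 1 (J + 1 - p), cT w L m := by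
    have h3 : Ico (p + 1) (J + 1) = (Ico 1 (J + 1 - p)).image (fun m => m + p) := by
      rw [image_add_right_Ico]
      congr 1 <;> omega
    rw [h3, sum_image (fun x _ y _ h => by simpa using h)]
    refine sum_congr rfl fun m _ => ?_
    rw [Nat.add_sub_cancel]
  rw [h2]
  exact cT_sum hw _

end

/-- The excursion lemma for one chain `a 0, a 1, ...`, `r_k = a_k/a_{k-1}`. -/
theorem exc_core {a y w δ : ℕ → ℝ} {κ z : ℝ} {J N : ℕ} (hκ : 0 < κ) (hz : 0 < z)
    (hy : ∀ k, 0 ≤ y k) (hw : ∀ i, 0 ≤ w i) (hδ : ∀ i, 0 ≤ δ i) (a0 : a 0 = 1)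
    (h1 : ∀ k < J, a k ≤ 2 * z ^ k) (h2 : 2 * z ^ J < a J)
    (h3 : ∀ k, 0 < k → k < J → a J ≤ 2 * z ^ (J - k) * a k)
    (h4 : ∀ k, κ * a (k + 1) ≤ a k)
    (h5 : ∀ k, 1 ≤ k → 0 < a k → (∀ p < k, a p * z ^ k ≤ 2 * a k * z ^ p) →
      y k + κ * (a k / a (k - 1)) ^ 2 ≤
        a (k + 1) / a k - a k / a (k - 1) + δ k + ∑ p ∈ Ico 1 k, w (k - p) * y p)
    (h6 : ∀ M, ∑ i ∈ range M, (1 + (i : ℝ)) * w i ≤ 1)
    (h7 : ∑ i ∈ range N, (i : ℝ) * δ i ≤ z / 4)
    (h8 : ∀ i, N ≤ i → 4 * δ i ≤ κ * z ^ 2) : False := by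
  have J1 : 1 ≤ J := by
    rcases Nat.eq_zero_or_pos J with h | h
    · subst h
      rw [a0, pow_zero] at h2
      norm_num at h2
    · exact h
  -- positivity up to `J`
  have lo : ∀ k, 1 ≤ k → k ≤ J → z ^ k < a k := by
    intro k k1 kJ
    rcases kJ.eq_or_lt with h | h
    · subst h
      have := pow_pos hz k
      linarith
    · have e1 := h3 k k1 h
      have e2 : z ^ J = z ^ (J - k) * z ^ k := by
        rw [← pow_add]
        congr 1
        omega
      have e3 := pow_pos hz (J - k)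
      have e4 : z ^ (J - k) * z ^ k < z ^ (J - k) * a k := by
        rw [← e2]
        nlinarith
      exact lt_of_mul_lt_mul_left e4 e3.le
  have pos : ∀ k, k ≤ J → 0 < a k := by
    intro k kJ
    rcases Nat.eq_zero_or_pos k with h | h
    · subst h
      rw [a0]
      norm_num
    · exact (pow_pos hz k).trans (lo k h kJ)
  have hist : ∀ k, 1 ≤ k → k ≤ J → ∀ p < k, a p * z ^ k ≤ 2 * a k * z ^ p := by
    intro k k1 kJ p pk
    have e1 := h1 p (lt_of_lt_of_le pk kJ)
    have e2 := (lo k k1 kJ).le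
    have e3 := pow_pos hz p
    have e4 := pow_pos hz k
    calc a p * z ^ k ≤ (2 * z ^ p) * z ^ k := mul_le_mul_of_nonneg_right e1 e4.le
      _ ≤ (2 * z ^ p) * a k := mul_le_mul_of_nonneg_left e2 (by positivity)
      _ = 2 * a k * z ^ p := by ring
  -- the horizon
  obtain ⟨K, hK⟩ := exists_nat_gt (1 / κ / (κ * z ^ 2 / 2))
  set L : ℕ := J + N + K + 1 with hL
  set r : ℕ → ℝ := fun k => a k / a (k - 1) with hr
  set P : ℕ → ℝ := fun k => r k - ∑ p ∈ Ico 1 k, cT w L (k - p) * y p with hP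
  have hPr : ∀ k, P k ≤ r k := by
    intro k
    simp only [hP]
    have : 0 ≤ ∑ p ∈ Ico 1 k, cT w L (k - p) * y p :=
      sum_nonneg fun p _ => mul_nonneg (cT_nonneg hw _) (hy p)
    linarith
  have c1 : cT w L 1 + ∑ i ∈ range L, (i : ℝ) * w i ≤ 1 := by
    have e1 := h6 L
    have e2 : ∑ i ∈ range L, (1 + (i : ℝ)) * w i =
        ∑ i ∈ range L, w i + ∑ i ∈ range L, (i : ℝ) * w i := by
      rw [← sum_add_distrib]
      exact sum_congr rfl fun i _ => by ring
    have e3 : cT w L 1 ≤ ∑ i ∈ range L, w i := by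
      unfold cT
      refine sum_le_sum_of_subset_of_nonneg ?_ fun i _ _ => hw i
      intro i hi
      simp only [mem_Ico, mem_range] at hi ⊢
      exact hi.2
    linarith
  have W1 : 0 ≤ ∑ i ∈ range L, (i : ℝ) * w i :=
    sum_nonneg fun i _ => mul_nonneg (Nat.cast_nonneg i) (hw i)
  -- the step of the potential
  have step : ∀ k, 1 ≤ k → k < L → 0 < a k → (∀ p < k, a p * z ^ k ≤ 2 * a k * z ^ p) →
      P k + (κ * r k ^ 2 - δ k + (1 - cT w L 1) * y k) ≤ P (k + 1) := by
    intro k k1 kL ak hh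
    have e1 := h5 k k1 ak hh
    have e2 := phi_step (w := w) (y := y) k1 kL
    have e3 : P (k + 1) = a (k + 1) / a k - ∑ p ∈ Ico 1 (k + 1), cT w L (k + 1 - p) * y p := rfl
    have e4 : P k = a k / a (k - 1) - ∑ p ∈ Ico 1 k, cT w L (k - p) * y p := rfl
    have e5 : r k = a k / a (k - 1) := rfl
    rw [e3, e2, e4, e5]
    linarith
  -- the product of the `r_k / z`
  have prod : ∀ k, k ≤ J → ∏ i ∈ range k, (r (i + 1) / z) = a k / z ^ k := by
    intro k
    induction k with
    | zero =>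
      intro _
      rw [range_zero, prod_empty, a0, pow_zero, div_one]
    | succ k ih =>
      intro hk
      rw [prod_range_succ, ih (by omega)]
      have e1 : r (k + 1) = a (k + 1) / a k := rfl
      rw [e1]
      have := (pos k (by omega)).ne'
      have := hz.ne'
      field_simp
      ring
  have sumlog : z * (69 / 100) < ∑ k ∈ Ico 1 (J + 1), (r k - z) := by
    have e1 : ∏ i ∈ range J, (r (i + 1) / z) ≤ Real.exp (∑ i ∈ range J, (r (i + 1) / z - 1)) := by
      rw [Real.exp_sum]
      refine prod_le_prod (fun i hi => ?_) fun i _ => ?_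
      · rw [mem_range] at hi
        have e2 : r (i + 1) = a (i + 1) / a i := rfl
        rw [e2]
        exact div_nonneg (div_nonneg (pos _ (by omega)).le (pos _ (by omega)).le) hz.le
      · have := Real.add_one_le_exp (r (i + 1) / z - 1)
        linarith
    rw [prod J le_rfl] at e1
    have e2 : 2 < a J / z ^ J := by
      rw [lt_div_iff₀ (pow_pos hz J)]
      exact h2
    have e3 : Real.log 2 < ∑ i ∈ range J, (r (i + 1) / z - 1) := by
      rw [Real.log_lt_iff_lt_exp (by norm_num)]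
      exact e2.trans_le e1
    have e4 := Real.log_two_gt_d9
    have e5 : ∑ k ∈ Ico 1 (J + 1), (r k - z) = z * ∑ i ∈ range J, (r (i + 1) / z - 1) := by
      rw [mul_sum, sum_Ico_eq_sum_range]
      refine sum_congr (by simp) fun i _ => ?_
      rw [add_comm 1 i]
      have := hz.ne'
      field_simp
    rw [e5]
    exact mul_lt_mul_of_pos_left (by linarith) hz
  -- Abel summation
  have abel : ∀ j, 1 ≤ j → j ≤ J → ∑ k ∈ Ico 1 (j + 1), (P k - z) +
      ∑ i ∈ Ico 1 j, (i : ℝ) * (κ * r i ^ 2 - δ i + (1 - cT w L 1) * y i) ≤ j * (P j - z) := by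
    intro j hj
    induction j, hj using Nat.le_induction with
    | base =>
      intro _
      rw [sum_Ico_succ_top le_rfl, Ico_self, sum_empty, sum_empty]
      norm_num
    | succ j hj ih =>
      intro hJ
      have e1 := ih (by omega)
      have e2 := step j hj (by omega) (pos j (by omega)) (hist j hj (by omega))
      have s1 : ∑ k ∈ Ico 1 (j + 1 + 1), (P k - z) =
          ∑ k ∈ Ico 1 (j + 1), (P k - z) + (P (j + 1) - z) := sum_Ico_succ_top (by omega) _
      have s2 : ∑ i ∈ Ico 1 (j + 1), (i : ℝ) * (κ * r i ^ 2 - δ i + (1 - cT w L 1) * y i) =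
          ∑ i ∈ Ico 1 j, (i : ℝ) * (κ * r i ^ 2 - δ i + (1 - cT w L 1) * y i) +
            (j : ℝ) * (κ * r j ^ 2 - δ j + (1 - cT w L 1) * y j) := sum_Ico_succ_top hj _
      rw [s1, s2]
      have e3 : (j : ℝ) * (P j + (κ * r j ^ 2 - δ j + (1 - cT w L 1) * y j)) ≤ j * P (j + 1) :=
        mul_le_mul_of_nonneg_left e2 (Nat.cast_nonneg j)
      push_cast
      linarith
  have rlo : ∀ k, 1 ≤ k → k ≤ J → z / 2 ≤ r k := by
    intro k k1 kJ
    have e1 := hist k k1 kJ (k - 1) (by omega)
    have e2 : z ^ k = z ^ (k - 1) * z := by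
      rw [← pow_succ]
      congr 1
      omega
    have e3 := pow_pos hz (k - 1)
    have e4 : z ^ (k - 1) * (a (k - 1) * z) ≤ z ^ (k - 1) * (2 * a k) := by
      calc z ^ (k - 1) * (a (k - 1) * z) = a (k - 1) * z ^ k := by rw [e2]; ring
        _ ≤ 2 * a k * z ^ (k - 1) := e1
        _ = _ := by ring
    have e5 := le_of_mul_le_mul_left e4 e3
    have e6 := pos (k - 1) (by omega)
    show z / 2 ≤ a k / a (k - 1)
    rw [le_div_iff₀ e6]
    linarith
  -- `κ r² ≥ δ` from `N` on
  have rd : ∀ i, 1 ≤ i → i ≤ J → N ≤ i → δ i ≤ κ * r i ^ 2 := by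
    intro i i1 iJ hi
    have e1 := rlo i i1 iJ
    have e2 := h8 i hi
    have e3 : (z / 2) ^ 2 ≤ r i ^ 2 := pow_le_pow_left₀ (by positivity) e1 2
    have e4 := mul_le_mul_of_nonneg_left e3 hκ.le
    nlinarith
  set D : ℕ → ℝ := fun k => ∑ i ∈ range N, if i < k then (i : ℝ) * δ i else 0 with hD
  have D1 : ∀ k, D k ≤ z / 4 := by
    intro k
    refine le_trans ?_ h7
    refine sum_le_sum fun i _ => ?_
    split_ifs
    · exact le_rfl
    · exact mul_nonneg (Nat.cast_nonneg i) (hδ i)
  have D2 : ∀ k, D (k + 1) = D k + if k < N then (k : ℝ) * δ k else 0 := by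
    intro k
    simp only [hD]
    have e1 : ∀ i, (if i < k + 1 then (i : ℝ) * δ i else 0) =
        (if i < k then (i : ℝ) * δ i else 0) + if i = k then (i : ℝ) * δ i else 0 := by
      intro i
      rcases lt_trichotomy i k with h | h | h
      · rw [if_pos (by omega), if_pos h, if_neg (by omega), add_zero]
      · rw [if_pos (by omega), if_neg (by omega), if_pos h, zero_add]
      · rw [if_neg (by omega), if_neg (by omega), if_neg (by omega), add_zero]
    rw [sum_congr rfl fun i _ => e1 i, sum_add_distrib, sum_ite_eq' (range N) k]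
    simp only [mem_range]
  -- the potential at time `J`
  have main : (69 / 100) * z - D J < J * (P J - z) := by
    have e1 := abel J J1 le_rfl
    have e2 : ∑ k ∈ Ico 1 (J + 1), (P k - z) = ∑ k ∈ Ico 1 (J + 1), (r k - z) -
        ∑ k ∈ Ico 1 (J + 1), ∑ p ∈ Ico 1 k, cT w L (k - p) * y p := by
      rw [← sum_sub_distrib]
      refine sum_congr rfl fun k _ => ?_
      simp only [hP]
      ring
    have e3 := cT_double (L := L) hw hy J
    have e4 : (∑ i ∈ range L, (i : ℝ) * w i) * ∑ p ∈ Ico 1 J, y p - D J ≤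
        ∑ i ∈ Ico 1 J, (i : ℝ) * (κ * r i ^ 2 - δ i + (1 - cT w L 1) * y i) := by
      have e5 : D J = ∑ i ∈ Ico 1 J, if i < N then (i : ℝ) * δ i else 0 := by
        have e6 : ∀ j, D j = ∑ i ∈ range j, if i < N then (i : ℝ) * δ i else 0 := by
          intro j
          induction j with
          | zero => simp [hD]
          | succ j ih => rw [D2, ih, sum_range_succ]
        rw [e6, range_eq_Ico, sum_eq_sum_Ico_succ_bot (by omega : 0 < J)]
        simp
      rw [e5, mul_sum, ← sum_sub_distrib]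
      refine sum_le_sum fun i hi => ?_
      rw [mem_Ico] at hi
      have i1 : (1 : ℝ) ≤ i := by exact_mod_cast hi.1
      have e6 : (∑ i ∈ range L, (i : ℝ) * w i) * y i ≤ (i : ℝ) * ((1 - cT w L 1) * y i) := by
        have e7 : ∑ i ∈ range L, (i : ℝ) * w i ≤ 1 - cT w L 1 := by linarith
        have e8 : 0 ≤ (1 - cT w L 1) * y i := mul_nonneg (by linarith) (hy i)
        calc (∑ i ∈ range L, (i : ℝ) * w i) * y i ≤ (1 - cT w L 1) * y i :=
              mul_le_mul_of_nonneg_right e7 (hy i)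
          _ = 1 * ((1 - cT w L 1) * y i) := by ring
          _ ≤ i * ((1 - cT w L 1) * y i) := mul_le_mul_of_nonneg_right i1 e8
      have e9 : -(if i < N then (i : ℝ) * δ i else 0) ≤ (i : ℝ) * (κ * r i ^ 2 - δ i) := by
        split_ifs with h
        · have : 0 ≤ (i : ℝ) * (κ * r i ^ 2) := by positivity
          linarith
        · have e10 := rd i hi.1 (by omega) (by omega)
          have : 0 ≤ (i : ℝ) * (κ * r i ^ 2 - δ i) := mul_nonneg (by linarith) (by linarith)
          linarith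
      linarith
    linarith
  -- after time `J`
  have J0 : (0 : ℝ) < J := by exact_mod_cast J1
  have after : ∀ k, J ≤ k → k < L → (0 < a k ∧ ∀ p < k, a p * z ^ k ≤ 2 * a k * z ^ p) ∧
      (69 / 100) * z - D k < J * (P k - z) := by
    intro k hk
    induction k, hk using Nat.le_induction with
    | base => exact fun _ => ⟨⟨pos J le_rfl, hist J J1 le_rfl⟩, main⟩
    | succ k hk ih =>
      intro kL
      obtain ⟨⟨ak, hh⟩, hk2⟩ := ih (by omega)
      have k1 : 1 ≤ k := J1.trans hk
      have e1 := step k k1 (by omega) ak hh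
      have Pk : z < P k := by
        have e2 := D1 k
        have e3 : 0 < J * (P k - z) := by linarith
        have e4 := (mul_pos_iff_of_pos_left J0).1 e3
        linarith
      have rk : z < r k := Pk.trans_le (hPr k)
      have e5 : 0 ≤ (1 - cT w L 1) * y k := mul_nonneg (by linarith) (hy k)
      have e6 : (69 / 100) * z - D (k + 1) < J * (P (k + 1) - z) := by
        rw [D2]
        have e7 : -(if k < N then (k : ℝ) * δ k else 0) ≤ J * (κ * r k ^ 2 - δ k) := by
          split_ifs with h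
          · have e8 : (J : ℝ) * δ k ≤ k * δ k :=
              mul_le_mul_of_nonneg_right (by exact_mod_cast hk) (hδ k)
            have e9 : 0 ≤ (J : ℝ) * (κ * r k ^ 2) := by positivity
            linarith
          · have e8 := h8 k (by omega)
            have e9 : z ^ 2 ≤ r k ^ 2 := pow_le_pow_left₀ hz.le rk.le 2
            have e10 := mul_le_mul_of_nonneg_left e9 hκ.le
            have e11 : 0 ≤ κ * z ^ 2 := by positivity
            have : 0 ≤ (J : ℝ) * (κ * r k ^ 2 - δ k) := mul_nonneg J0.le (by linarith)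
            linarith
        have e12 := mul_le_mul_of_nonneg_left e1 J0.le
        have e13 : 0 ≤ (J : ℝ) * ((1 - cT w L 1) * y k) := mul_nonneg J0.le e5
        linarith
      have Pk1 : z < P (k + 1) := by
        have e2 := D1 (k + 1)
        have e3 : 0 < J * (P (k + 1) - z) := by linarith
        have e4 := (mul_pos_iff_of_pos_left J0).1 e3
        linarith
      have rk1 : z < a (k + 1) / a k := Pk1.trans_le (hPr (k + 1))
      rw [lt_div_iff₀ ak] at rk1
      have ak1 : 0 < a (k + 1) := (mul_pos hz ak).trans rk1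
      refine ⟨⟨ak1, fun p hp => ?_⟩, e6⟩
      have e14 : a p * z ^ k ≤ 2 * a k * z ^ p := by
        rcases (Nat.lt_succ_iff.1 hp).eq_or_lt with h | h
        · subst h
          have := pow_pos hz p
          nlinarith
        · exact hh p h
      have e15 := pow_pos hz p
      calc a p * z ^ (k + 1) = (a p * z ^ k) * z := by ring
        _ ≤ (2 * a k * z ^ p) * z := mul_le_mul_of_nonneg_right e14 hz.le
        _ = (2 * z ^ p) * (z * a k) := by ring
        _ ≤ (2 * z ^ p) * a (k + 1) := mul_le_mul_of_nonneg_left rk1.le (by positivity)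
        _ = 2 * a (k + 1) * z ^ p := by ring
  -- linear growth
  have grow : ∀ k, k ≤ K → k * (κ * z ^ 2 / 2) ≤ P (J + N + k) := by
    intro k
    induction k with
    | zero =>
      intro _
      obtain ⟨_, e1⟩ := after (J + N + 0) (by omega) (by omega)
      have e2 := D1 (J + N + 0)
      have e3 : 0 < J * (P (J + N + 0) - z) := by linarith
      have e4 := (mul_pos_iff_of_pos_left J0).1 e3
      norm_num at e4 ⊢
      linarith
    | succ k ih =>
      intro hk
      have e0 := ih (by omega)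
      obtain ⟨⟨ak, hh⟩, e1⟩ := after (J + N + k) (by omega) (by omega)
      have e2 := D1 (J + N + k)
      have e3 : 0 < J * (P (J + N + k) - z) := by linarith
      have e4 := (mul_pos_iff_of_pos_left J0).1 e3
      have rk : z < r (J + N + k) := (by linarith : z < P (J + N + k)).trans_le (hPr _)
      have e5 := step (J + N + k) (by omega) (by omega) ak hh
      have e6 : 0 ≤ (1 - cT w L 1) * y (J + N + k) := mul_nonneg (by linarith) (hy _)
      have e8 := h8 (J + N + k) (by omega)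
      have e9 : z ^ 2 ≤ r (J + N + k) ^ 2 := pow_le_pow_left₀ hz.le rk.le 2
      have e10 := mul_le_mul_of_nonneg_left e9 hκ.le
      have e11 : 0 ≤ κ * z ^ 2 := by positivity
      have e12 : J + N + (k + 1) = J + N + k + 1 := by ring
      rw [e12]
      push_cast
      linarith
  have fin1 := grow K le_rfl
  obtain ⟨⟨ak, _⟩, _⟩ := after (J + N + K) (by omega) (by omega)
  have fin2 : r (J + N + K) ≤ 1 / κ := by
    have e1 := h4 (J + N + K - 1)
    have e2 : J + N + K - 1 + 1 = J + N + K := by omega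
    rw [e2] at e1
    show a (J + N + K) / a (J + N + K - 1) ≤ 1 / κ
    have e3 : 0 < a (J + N + K - 1) := by
      have : 0 < κ * a (J + N + K) := mul_pos hκ ak
      linarith
    rw [div_le_div_iff₀ e3 hκ]
    linarith
  have fin3 := hPr (J + N + K)
  have e1 : 0 < κ * z ^ 2 / 2 := by positivity
  rw [div_lt_iff₀ e1] at hK
  linarith

end Pool.Agent.Lib.MP_8d00da_gt.h62a
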