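import Pool.Agent.Lib.MP_8d00da_gt.h62a.EX

/-! # Excursion lemma (pure real sequences) -/

open scoped BigOperators
open Finset

namespace Pool.Agent.Lib.MP_8d00da_gt.h62a

/-- The weight of level `j`. -/
private noncomputable def ph (m : ℕ → ℝ) (z : ℝ) (w j : ℕ) : ℝ :=
  if 1 ≤ j ∧ j < w then (j : ℝ) ^ 4 * ((j : ℝ) + 1) ^ 2 * (m j / z ^ j) else 0

private theorem ph_nonneg {m : ℕ → ℝ} {z : ℝ} (hm : ∀ l, 0 ≤ m l) (hz : 0 < z) (w j : ℕ) :
    0 ≤ ph m z w j := by
  unfold ph
  split_ifs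
  · have := hm j
    positivity
  · exact le_rfl

private theorem reflect1 (g y : ℕ → ℝ) (k : ℕ) :
    ∑ p ∈ Ico 1 k, g (k - p) * y p = ∑ j ∈ Ico 1 k, g j * y (k - j) := by
  refine sum_nbij' (fun p => k - p) (fun j => k - j) ?_ ?_ ?_ ?_ ?_
  · intro p hp
    rw [mem_Ico] at hp ⊢
    omega
  · intro p hp
    rw [mem_Ico] at hp ⊢
    omega
  · intro p hp
    rw [mem_Ico] at hp
    omega
  · intro p hp
    rw [mem_Ico] at hp
    omega
  · intro p hp
    rw [mem_Ico] at hp
    have : k - (k - p) = p := by omega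
    simp only [this]

private theorem reflect2 {g y : ℕ → ℝ} (hg : ∀ i, 0 ≤ g i) (hy : ∀ i, 0 ≤ y i) (k b : ℕ) :
    ∑ j ∈ Ico 1 b, (if j + 1 ≤ k - 1 then g j * y (k - 1 - j) else 0) ≤
      ∑ p ∈ Ico 1 k, g (k - p - 1) * y p := by
  rw [← sum_filter]
  have h1 : ∑ j ∈ (Ico 1 b).filter (fun j => j + 1 ≤ k - 1), g j * y (k - 1 - j) =
      ∑ p ∈ ((Ico 1 b).filter (fun j => j + 1 ≤ k - 1)).image (fun j => k - 1 - j),
        g (k - p - 1) * y p := by
    rw [sum_image]
    · refine sum_congr rfl fun j hj => ?_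
      rw [mem_filter, mem_Ico] at hj
      have : k - (k - 1 - j) - 1 = j := by omega
      rw [this]
    · intro j hj j' hj' h
      simp only [coe_filter, mem_Ico, Set.mem_ofPred_eq] at hj hj'
      simp only at h
      omega
  rw [h1]
  refine sum_le_sum_of_subset_of_nonneg ?_ fun i _ _ => mul_nonneg (hg _) (hy _)
  intro p hp
  simp only [mem_image, mem_filter, mem_Ico] at hp ⊢
  obtain ⟨j, hj, rfl⟩ := hp
  omega

/-- The sum of the weights. -/
private theorem weights {m : ℕ → ℝ} {z : ℝ} (hm : ∀ l, 0 ≤ m l) (hz : 0 < z) {w : ℕ}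
    (h1 : 100000 * ∑ j ∈ Ico 1 w, (j : ℝ) ^ 7 * (m j / z ^ j) ≤ 1) (M : ℕ) :
    ∑ i ∈ range M, (1 + (i : ℝ)) * (340 * ph m z w i + 1360 * ph m z w (i - 1)) ≤ 1 := by
  have key : ∀ j : ℕ, 1 ≤ j → (j : ℝ) * ph m z w j ≤ 4 * ((j : ℝ) ^ 7 * (m j / z ^ j)) := by
    intro j hj
    have j1 : (1 : ℝ) ≤ j := by exact_mod_cast hj
    have hm' : 0 ≤ m j / z ^ j := div_nonneg (hm j) (pow_pos hz j).le
    unfold ph
    split_ifs
    · have e1 : ((j : ℝ) + 1) ^ 2 ≤ 4 * (j : ℝ) ^ 2 := by nlinarith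
      calc (j : ℝ) * ((j : ℝ) ^ 4 * ((j : ℝ) + 1) ^ 2 * (m j / z ^ j))
          = ((j : ℝ) ^ 5 * (m j / z ^ j)) * ((j : ℝ) + 1) ^ 2 := by ring
        _ ≤ ((j : ℝ) ^ 5 * (m j / z ^ j)) * (4 * (j : ℝ) ^ 2) :=
          mul_le_mul_of_nonneg_left e1 (by positivity)
        _ = _ := by ring
    · rw [mul_zero]
      positivity
  have e0 : ∀ N : ℕ, ∑ j ∈ range N, (j : ℝ) * ph m z w j ≤
      4 * ∑ j ∈ Ico 1 w, (j : ℝ) ^ 7 * (m j / z ^ j) := by
    intro N
    have e1 : ∑ j ∈ range N, (j : ℝ) * ph m z w j =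
        ∑ j ∈ (range N).filter (fun j => 1 ≤ j ∧ j < w), (j : ℝ) * ph m z w j := by
      rw [sum_filter]
      refine sum_congr rfl fun j _ => ?_
      split_ifs with h
      · rfl
      · unfold ph
        rw [if_neg h, mul_zero]
    rw [e1, mul_sum]
    refine le_trans (sum_le_sum fun j hj => key j (mem_filter.1 hj).2.1) ?_
    refine sum_le_sum_of_subset_of_nonneg ?_ fun j _ _ => ?_
    · intro j hj
      rw [mem_filter] at hj
      exact mem_Ico.2 hj.2
    · have := hm j
      positivity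
  have e1 : ∑ i ∈ range M, (1 + (i : ℝ)) * (340 * ph m z w i) ≤
      680 * ∑ j ∈ range M, (j : ℝ) * ph m z w j := by
    rw [mul_sum]
    refine sum_le_sum fun i _ => ?_
    rcases Nat.eq_zero_or_pos i with h | h
    · subst h
      have : ph m z w 0 = 0 := by
        unfold ph
        rw [if_neg (by omega)]
      rw [this]
      norm_num
    · have i1 : (1 : ℝ) ≤ i := by exact_mod_cast h
      have := ph_nonneg hm hz w i
      nlinarith
  have e2 : ∑ i ∈ range M, (1 + (i : ℝ)) * (1360 * ph m z w (i - 1)) ≤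
      4080 * ∑ j ∈ range M, (j : ℝ) * ph m z w j := by
    have e3 : ∀ i : ℕ, (1 + (i : ℝ)) * (1360 * ph m z w (i - 1)) ≤
        4080 * (((i - 1 : ℕ) : ℝ) * ph m z w (i - 1)) := by
      intro i
      rcases Nat.lt_or_ge i 2 with h | h
      · have : ph m z w (i - 1) = 0 := by
          unfold ph
          rw [if_neg (by omega)]
        rw [this]
        norm_num
      · have i1 : (2 : ℝ) ≤ i := by exact_mod_cast h
        have e4 : ((i - 1 : ℕ) : ℝ) = i - 1 := by
          rw [Nat.cast_sub (by omega)]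
          norm_num
        rw [e4]
        have := ph_nonneg hm hz w (i - 1)
        nlinarith
    refine le_trans (sum_le_sum fun i _ => e3 i) ?_
    rw [← mul_sum]
    refine mul_le_mul_of_nonneg_left ?_ (by norm_num)
    cases M with
    | zero => simp
    | succ M =>
      rw [sum_range_succ']
      have e5 : ((0 - 1 : ℕ) : ℝ) * ph m z w (0 - 1) = 0 := by simp
      rw [e5, add_zero]
      have e6 : ∑ k ∈ range M, ((k + 1 - 1 : ℕ) : ℝ) * ph m z w (k + 1 - 1) =
          ∑ k ∈ range M, (k : ℝ) * ph m z w k := by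
        refine sum_congr rfl fun k _ => ?_
        rw [Nat.add_sub_cancel]
      rw [e6]
      refine sum_le_sum_of_subset_of_nonneg (range_mono (Nat.le_succ M)) fun i _ _ => ?_
      exact mul_nonneg (Nat.cast_nonneg i) (ph_nonneg hm hz w i)
  have e3 : ∑ i ∈ range M, (1 + (i : ℝ)) * (340 * ph m z w i + 1360 * ph m z w (i - 1)) =
      ∑ i ∈ range M, (1 + (i : ℝ)) * (340 * ph m z w i) +
        ∑ i ∈ range M, (1 + (i : ℝ)) * (1360 * ph m z w (i - 1)) := by
    rw [← sum_add_distrib]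
    exact sum_congr rfl fun i _ => by ring
  rw [e3]
  have e4 := e0 M
  have e5 : 0 ≤ ∑ j ∈ Ico 1 w, (j : ℝ) ^ 7 * (m j / z ^ j) :=
    sum_nonneg fun j _ => by
      have := hm j
      positivity
  linarith

/-- One chain in the application. -/
private theorem exc_one {kap z t1 : ℝ} (hk : 0 < kap) (hz0 : 0 < z) (w : ℕ) (hw : 2 ≤ w)
    (a al zz m : ℕ → ℝ) (J : ℕ)
    (a0 : a 0 = 1) (ha : ∀ k, 0 ≤ a k) (hal : ∀ k, 0 ≤ al k) (hm : ∀ l, 0 ≤ m l)
    (hpos : ∀ p k, p ≤ k → 0 < a k → 0 < a p)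
    (hb1 : ∀ k < J, a k ≤ 2 * z ^ k) (hb2 : 2 * z ^ J < a J)
    (hb3 : ∀ k, 0 < k → k < J → a J ≤ 2 * z ^ (J - k) * a k)
    (hbd : ∀ k, kap * a (k + 1) ≤ a k)
    (hchain : ∀ k, a (k + 1) ^ 2 ≤ (a k - kap * a (k + 1)) * (a (k + 2) - al k + zz k))
    (ht0 : 0 ≤ t1) (ht1 : t1 ≤ 4 * z)
    (hearly : ∀ k, zz k ≤ 2 * ((min w (k + 1) : ℕ) : ℝ) ^ 2 * m (min w (k + 1))
        * a (k + 2 - min w (k + 1))
      + 170 * ∑ j ∈ Ico 1 (min w (k + 1)), (j : ℝ) ^ 4 * ((j : ℝ) + 1) ^ 2 * m j *
          (al (k - j) + t1 * (if j + 1 ≤ k then al (k - 1 - j) else 0)))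
    (h1 : 100000 * ∑ j ∈ Ico 1 w, (j : ℝ) ^ 7 * (m j / z ^ j) ≤ 1)
    (h2 : 1000 * ((w : ℝ) ^ 2 * (m w / z ^ w)) ≤ kap * z) : False := by
  set y : ℕ → ℝ := fun k => if k = 0 then 0 else al (k - 1) / a k with hy
  have y0 : ∀ k, 0 ≤ y k := by
    intro k
    simp only [hy]
    split_ifs
    · exact le_rfl
    · exact div_nonneg (hal _) (ha _)
  set de : ℕ → ℝ := fun k =>
    4 * z * ((((min w k : ℕ) : ℝ)) ^ 2 * (m (min w k) / z ^ (min w k))) with hde
  have de0 : ∀ k, 0 ≤ de k := by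
    intro k
    simp only [hde]
    have := hm (min w k)
    positivity
  set W : ℕ → ℝ := fun i => 340 * ph m z w i + 1360 * ph m z w (i - 1) with hW
  have W0 : ∀ i, 0 ≤ W i := by
    intro i
    simp only [hW]
    have e1 := ph_nonneg hm hz0 w i
    have e2 := ph_nonneg hm hz0 w (i - 1)
    positivity
  have w2 : (2 : ℝ) ≤ w := by exact_mod_cast hw
  refine exc_core (a := a) (y := y) (w := W) (δ := de) (κ := kap) (z := z) (J := J) (N := w)
    hk hz0 y0 W0 de0 a0 hb1 hb2 hb3 hbd ?_ ?_ ?_ ?_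
  · -- the step
    intro k k1 ak hist
    have ak1 : 0 < a (k - 1) := hpos (k - 1) k (by omega) ak
    have c1 := hchain (k - 1)
    have c2 := hbd (k - 1)
    have i1 : k - 1 + 1 = k := by omega
    have i2 : k - 1 + 2 = k + 1 := by omega
    rw [i1, i2] at c1
    rw [i1] at c2
    have Q0 : 0 < a (k + 1) - al (k - 1) + zz (k - 1) := by
      have e1 : 0 < (a (k - 1) - kap * a k) * (a (k + 1) - al (k - 1) + zz (k - 1)) :=
        (pow_pos ak 2).trans_le c1
      rcases (sub_nonneg.2 c2).eq_or_lt with h | h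
      · rw [← h, zero_mul] at e1
        exact absurd e1 (lt_irrefl _)
      · exact (mul_pos_iff_of_pos_left h).1 e1
    have c3 : a k ^ 2 * (a (k - 1) + kap * a k) ≤
        a (k - 1) ^ 2 * (a (k + 1) - al (k - 1) + zz (k - 1)) := by
      have e1 : 0 ≤ a (k - 1) + kap * a k := by positivity
      have e2 := mul_le_mul_of_nonneg_right c1 e1
      have e3 : 0 ≤ (kap * a k) ^ 2 * (a (k + 1) - al (k - 1) + zz (k - 1)) :=
        mul_nonneg (sq_nonneg _) Q0.le
      calc a k ^ 2 * (a (k - 1) + kap * a k)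
          ≤ (a (k - 1) - kap * a k) * (a (k + 1) - al (k - 1) + zz (k - 1)) *
            (a (k - 1) + kap * a k) := e2
        _ = a (k - 1) ^ 2 * (a (k + 1) - al (k - 1) + zz (k - 1)) -
            (kap * a k) ^ 2 * (a (k + 1) - al (k - 1) + zz (k - 1)) := by ring
        _ ≤ _ := by linarith
    have c4 : a k / a (k - 1) + kap * (a k / a (k - 1)) ^ 2 ≤
        (a (k + 1) - al (k - 1) + zz (k - 1)) / a k := by
      rw [le_div_iff₀ ak]
      have e1 : (a k / a (k - 1) + kap * (a k / a (k - 1)) ^ 2) * a k =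
          a k ^ 2 * (a (k - 1) + kap * a k) / a (k - 1) ^ 2 := by
        have := ak1.ne'
        field_simp
      rw [e1, div_le_iff₀ (pow_pos ak1 2)]
      linarith
    have yk : y k = al (k - 1) / a k := by
      simp only [hy]
      rw [if_neg (by omega)]
    have c5 : (a (k + 1) - al (k - 1) + zz (k - 1)) / a k =
        a (k + 1) / a k - y k + zz (k - 1) / a k := by
      rw [yk]
      ring
    -- the bound of `zz`
    have hh : ∀ p, p ≤ k → a p ≤ 2 * a k / z ^ (k - p) := by
      intro p hp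
      rcases hp.eq_or_lt with h | h
      · subst h
        rw [Nat.sub_self, pow_zero, div_one]
        have := ha p
        linarith
      · have e1 := hist p h
        have e2 : z ^ k = z ^ p * z ^ (k - p) := by
          rw [← pow_add]
          congr 1
          omega
        rw [le_div_iff₀ (pow_pos hz0 _)]
        rw [e2] at e1
        have e3 := pow_pos hz0 p
        have e4 : z ^ p * (a p * z ^ (k - p)) ≤ z ^ p * (2 * a k) := by
          calc z ^ p * (a p * z ^ (k - p)) = a p * (z ^ p * z ^ (k - p)) := by ring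
            _ ≤ 2 * a k * z ^ p := e1
            _ = _ := by ring
        exact le_of_mul_le_mul_left e4 e3
    have ya : ∀ p, 1 ≤ p → p ≤ k → al (p - 1) ≤ y p * (2 * a k / z ^ (k - p)) := by
      intro p p1 pk
      have e1 : 0 < a p := hpos p k pk ak
      have e2 : y p = al (p - 1) / a p := by
        simp only [hy]
        rw [if_neg (by omega)]
      calc al (p - 1) = y p * a p := by
            rw [e2]
            have := e1.ne'
            field_simp
        _ ≤ _ := mul_le_mul_of_nonneg_left (hh p pk) (y0 p)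
    have c6 : zz (k - 1) / a k ≤ de k + ∑ p ∈ Ico 1 k, W (k - p) * y p := by
      have e1 := hearly (k - 1)
      rw [i1, i2] at e1
      set b : ℕ := min w k with hb
      have b1 : 1 ≤ b := by
        rw [hb]
        omega
      have bk : b ≤ k := min_le_right _ _
      have bw : b ≤ w := min_le_left _ _
      have e2 : 2 * (b : ℝ) ^ 2 * m b * a (k + 1 - b) ≤ a k * de k := by
        have e3 := hh (k + 1 - b) (by omega)
        have e4 : k - (k + 1 - b) = b - 1 := by omega
        rw [e4] at e3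
        have e5 : z ^ b = z ^ (b - 1) * z := by
          rw [← pow_succ]
          congr 1
          omega
        have e6 : a k * de k = 2 * (b : ℝ) ^ 2 * m b * (2 * a k / z ^ (b - 1)) := by
          simp only [hde, ← hb]
          rw [e5]
          have := hz0.ne'
          field_simp
          ring
        rw [e6]
        refine mul_le_mul_of_nonneg_left e3 ?_
        have := hm b
        positivity
      have e7 : 170 * ∑ j ∈ Ico 1 b, (j : ℝ) ^ 4 * ((j : ℝ) + 1) ^ 2 * m j *
          (al (k - 1 - j) + t1 * (if j + 1 ≤ k - 1 then al (k - 1 - 1 - j) else 0)) ≤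
          a k * ∑ p ∈ Ico 1 k, W (k - p) * y p := by
        have e8 : ∀ j ∈ Ico 1 b, (j : ℝ) ^ 4 * ((j : ℝ) + 1) ^ 2 * m j *
            (al (k - 1 - j) + t1 * (if j + 1 ≤ k - 1 then al (k - 1 - 1 - j) else 0)) ≤
            a k * (2 * (ph m z w j * y (k - j)) +
              8 * (if j + 1 ≤ k - 1 then ph m z w j * y (k - 1 - j) else 0)) := by
          intro j hj
          rw [mem_Ico] at hj
          have f1 : ph m z w j = (j : ℝ) ^ 4 * ((j : ℝ) + 1) ^ 2 * (m j / z ^ j) := by
            unfold ph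
            rw [if_pos ⟨hj.1, by omega⟩]
          have f2 := ya (k - j) (by omega) (by omega)
          have f3 : k - j - 1 = k - 1 - j := by omega
          have f4 : k - (k - j) = j := by omega
          rw [f3, f4] at f2
          have f5 : t1 * (if j + 1 ≤ k - 1 then al (k - 1 - 1 - j) else 0) ≤
              if j + 1 ≤ k - 1 then y (k - 1 - j) * (8 * a k / z ^ j) else 0 := by
            split_ifs with h
            · have g2 := ya (k - 1 - j) (by omega) (by omega)
              have g3 : k - 1 - j - 1 = k - 1 - 1 - j := by omega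
              have g4 : k - (k - 1 - j) = j + 1 := by omega
              rw [g3, g4] at g2
              have g5 : 0 ≤ y (k - 1 - j) * (2 * a k / z ^ (j + 1)) := by
                have := y0 (k - 1 - j)
                have := ha k
                positivity
              calc t1 * al (k - 1 - 1 - j) ≤ t1 * (y (k - 1 - j) * (2 * a k / z ^ (j + 1))) :=
                    mul_le_mul_of_nonneg_left g2 ht0
                _ ≤ (4 * z) * (y (k - 1 - j) * (2 * a k / z ^ (j + 1))) :=
                    mul_le_mul_of_nonneg_right ht1 g5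
                _ = y (k - 1 - j) * (8 * a k / z ^ j) := by
                    rw [pow_succ]
                    have := hz0.ne'
                    field_simp
                    ring
            · rw [mul_zero]
          have f6 : 0 ≤ (j : ℝ) ^ 4 * ((j : ℝ) + 1) ^ 2 * m j := by
            have := hm j
            positivity
          calc (j : ℝ) ^ 4 * ((j : ℝ) + 1) ^ 2 * m j *
              (al (k - 1 - j) + t1 * (if j + 1 ≤ k - 1 then al (k - 1 - 1 - j) else 0))
              ≤ (j : ℝ) ^ 4 * ((j : ℝ) + 1) ^ 2 * m j * (y (k - j) * (2 * a k / z ^ j) +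
                if j + 1 ≤ k - 1 then y (k - 1 - j) * (8 * a k / z ^ j) else 0) :=
                mul_le_mul_of_nonneg_left (add_le_add f2 f5) f6
            _ = a k * (2 * (ph m z w j * y (k - j)) +
              8 * (if j + 1 ≤ k - 1 then ph m z w j * y (k - 1 - j) else 0)) := by
                rw [f1]
                split_ifs
                · ring
                · ring
        have e9 : ∑ p ∈ Ico 1 k, W (k - p) * y p = 340 * ∑ p ∈ Ico 1 k, ph m z w (k - p) * y p +
            1360 * ∑ p ∈ Ico 1 k, ph m z w (k - p - 1) * y p := by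
          rw [mul_sum, mul_sum, ← sum_add_distrib]
          refine sum_congr rfl fun p _ => ?_
          simp only [hW]
          ring
        have e10 := reflect2 (g := ph m z w) (y := y) (ph_nonneg hm hz0 w) y0 k b
        have e11 : ∑ j ∈ Ico 1 b, ph m z w j * y (k - j) ≤
            ∑ p ∈ Ico 1 k, ph m z w (k - p) * y p := by
          rw [reflect1]
          refine sum_le_sum_of_subset_of_nonneg ?_ fun i _ _ =>
            mul_nonneg (ph_nonneg hm hz0 w i) (y0 _)
          intro j hj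
          rw [mem_Ico] at hj ⊢
          omega
        have e12 := sum_le_sum e8
        rw [← mul_sum, sum_add_distrib, ← mul_sum, ← mul_sum] at e12
        rw [e9]
        calc 170 * ∑ j ∈ Ico 1 b, (j : ℝ) ^ 4 * ((j : ℝ) + 1) ^ 2 * m j *
            (al (k - 1 - j) + t1 * (if j + 1 ≤ k - 1 then al (k - 1 - 1 - j) else 0))
            ≤ 170 * (a k * (2 * ∑ j ∈ Ico 1 b, ph m z w j * y (k - j) +
              8 * ∑ j ∈ Ico 1 b, if j + 1 ≤ k - 1 then ph m z w j * y (k - 1 - j) else 0)) := by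
              linarith
          _ = a k * (340 * ∑ j ∈ Ico 1 b, ph m z w j * y (k - j) +
              1360 * ∑ j ∈ Ico 1 b, if j + 1 ≤ k - 1 then ph m z w j * y (k - 1 - j) else 0) := by
              ring
          _ ≤ a k * (340 * ∑ p ∈ Ico 1 k, ph m z w (k - p) * y p +
              1360 * ∑ p ∈ Ico 1 k, ph m z w (k - p - 1) * y p) :=
              mul_le_mul_of_nonneg_left (by linarith) ak.le
      rw [div_le_iff₀ ak]
      linarith
    rw [c5] at c4
    linarith
  · exact weights hm hz0 h1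
  · -- early terms
    have e1 : ∑ i ∈ range w, (i : ℝ) * de i ≤ 4 * z * ∑ j ∈ Ico 1 w, (j : ℝ) ^ 7 * (m j / z ^ j) := by
      rw [mul_sum, range_eq_Ico, sum_eq_sum_Ico_succ_bot (by omega : 0 < w)]
      rw [Nat.cast_zero, zero_mul, zero_add, zero_add]
      refine sum_le_sum fun i hi => ?_
      rw [mem_Ico] at hi
      have e2 : min w i = i := min_eq_right (by omega)
      have i1 : (1 : ℝ) ≤ i := by exact_mod_cast hi.1
      have e3 : 0 ≤ m i / z ^ i := div_nonneg (hm i) (pow_pos hz0 i).le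
      simp only [hde, e2]
      have e4 : (i : ℝ) ^ 3 ≤ (i : ℝ) ^ 7 := pow_le_pow_right₀ i1 (by norm_num)
      calc (i : ℝ) * (4 * z * ((i : ℝ) ^ 2 * (m i / z ^ i)))
          = 4 * z * ((i : ℝ) ^ 3 * (m i / z ^ i)) := by ring
        _ ≤ 4 * z * ((i : ℝ) ^ 7 * (m i / z ^ i)) :=
          mul_le_mul_of_nonneg_left (mul_le_mul_of_nonneg_right e4 e3) (by positivity)
    have e5 : ∑ j ∈ Ico 1 w, (j : ℝ) ^ 7 * (m j / z ^ j) ≤ 1 / 100000 := by linarith
    have e6 := mul_le_mul_of_nonneg_left e5 (by positivity : (0 : ℝ) ≤ 4 * z)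
    linarith
  · -- late terms
    intro i hi
    have e2 : min w i = w := min_eq_left hi
    simp only [hde, e2]
    have e3 : 0 ≤ (w : ℝ) ^ 2 * (m w / z ^ w) := by
      have := hm w
      positivity
    have e4 : 16 * ((w : ℝ) ^ 2 * (m w / z ^ w)) ≤ kap * z := by linarith
    have e5 := mul_le_mul_of_nonneg_left e4 hz0.le
    nlinarith

/-- EXCURSION LEMMA. `X` = unit vectors, `a x k = |T^k x|²`, `al x k = |Alt T² T^k x|²`,
`z x k = |X_{k+2}(x)|²`, `t k = sup_x a x k`. -/
theorem excursion {X : Type*} (kap s : ℝ) (hk : 0 < kap) (hs : 1 ≤ s) (w : ℕ) (hw : 2 ≤ w)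
    (a al z : X → ℕ → ℝ) (t m : ℕ → ℝ)
    (ha0 : ∀ x, a x 0 = 1) (ha : ∀ x k, 0 ≤ a x k) (hal : ∀ x k, 0 ≤ al x k)
    (hz : ∀ x k, 0 ≤ z x k) (hm : ∀ l, 0 ≤ m l)
    (hat : ∀ x k l, a x (k + l) ≤ t l * a x k)
    (hext : ∀ l, ∀ δ : ℝ, 0 < δ → ∃ x, t l - δ < a x l)
    (hbd : ∀ x k, kap * a x (k + 1) ≤ a x k)
    (hchain : ∀ x k, a x (k + 1) ^ 2 ≤
      (a x k - kap * a x (k + 1)) * (a x (k + 2) - al x k + z x k))
    (hearly : ∀ x k, z x k ≤ 2 * ((min w (k + 1) : ℕ) : ℝ) ^ 2 * m (min w (k + 1))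
        * a x (k + 2 - min w (k + 1))
      + 170 * ∑ j ∈ Ico 1 (min w (k + 1)), (j : ℝ) ^ 4 * ((j : ℝ) + 1) ^ 2 * m j *
          (al x (k - j) + t 1 * (if j + 1 ≤ k then al x (k - 1 - j) else 0)))
    (h1 : 100000 * ∑ j ∈ Ico 1 w, (j : ℝ) ^ 7 * m j / s ^ j ≤ 1)
    (h2 : 1000 * (w : ℝ) ^ 2 * m w / s ^ w ≤ kap * s) :
    ∀ k, t k ≤ 2 * s ^ k := by
  by_contra hcon
  push Not at hcon
  obtain ⟨k0, hk0⟩ := hcon
  have hs0 : 0 < s := by linarith
  have at' : ∀ x k, a x k ≤ t k := by
    intro x k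
    have e1 := hat x 0 k
    rw [zero_add, ha0, mul_one] at e1
    exact e1
  have t0 : ∀ k, 0 ≤ t k := by
    intro k
    obtain ⟨x, _⟩ := hext k 1 one_pos
    exact (ha x k).trans (at' x k)
  set ζ : ℝ := max s (t 1 / 4) with hζ
  have sζ : s ≤ ζ := le_max_left _ _
  have tζ : t 1 ≤ 4 * ζ := by
    have : t 1 / 4 ≤ ζ := le_max_right _ _
    linarith
  have ζ0 : 0 < ζ := hs0.trans_le sζ
  have ex : ∃ k, 2 * ζ ^ k < t k := by
    rcases le_total (t 1 / 4) s with h | h
    · refine ⟨k0, ?_⟩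
      rw [hζ, max_eq_left h]
      exact hk0
    · refine ⟨1, ?_⟩
      rw [hζ, max_eq_right h, pow_one]
      linarith
  classical
  set J : ℕ := Nat.find ex with hJ
  have J1 : 2 * ζ ^ J < t J := Nat.find_spec ex
  have J2 : ∀ k < J, t k ≤ 2 * ζ ^ k := fun k hk => not_lt.1 (Nat.find_min ex hk)
  obtain ⟨x, hx⟩ := hext J (t J - 2 * ζ ^ J) (by linarith)
  have hx' : 2 * ζ ^ J < a x J := by linarith
  have mono : ∀ j : ℕ, m j / ζ ^ j ≤ m j / s ^ j := fun j =>
    div_le_div_of_nonneg_left (hm j) (pow_pos hs0 j) (pow_le_pow_left₀ hs0.le sζ j)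
  refine exc_one (kap := kap) (z := ζ) (t1 := t 1) hk ζ0 w hw (a x) (al x) (z x) m J (ha0 x)
    (ha x) (hal x) hm ?_ ?_ hx' ?_ (hbd x) (hchain x) (t0 1) tζ (hearly x) ?_ ?_
  · intro p k hpk hak
    rcases (ha x p).eq_or_lt with h | h
    · have e1 := hat x p (k - p)
      rw [← h, mul_zero, Nat.add_sub_cancel' hpk] at e1
      linarith
    · exact h
  · intro k hk
    exact (at' x k).trans (J2 k hk)
  · intro k hk hkJ
    have e1 := hat x k (J - k)
    rw [Nat.add_sub_cancel' hkJ.le] at e1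
    exact e1.trans (mul_le_mul_of_nonneg_right (J2 (J - k) (by omega)) (ha x k))
  · refine le_trans ?_ h1
    refine mul_le_mul_of_nonneg_left (sum_le_sum fun j _ => ?_) (by norm_num)
    rw [mul_div_assoc]
    exact mul_le_mul_of_nonneg_left (mono j) (by positivity)
  · have e1 : 1000 * ((w : ℝ) ^ 2 * (m w / ζ ^ w)) ≤ 1000 * ((w : ℝ) ^ 2 * (m w / s ^ w)) :=
      mul_le_mul_of_nonneg_left (mul_le_mul_of_nonneg_left (mono w) (by positivity)) (by norm_num)
    have e2 : 1000 * ((w : ℝ) ^ 2 * (m w / s ^ w)) = 1000 * (w : ℝ) ^ 2 * m w / s ^ w := by ring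
    have e3 := mul_le_mul_of_nonneg_left sζ hk.le
    linarith

end Pool.Agent.Lib.MP_8d00da_gt.h62a
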